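import Mathlib

/-! Blaschke products in the upper half plane. -/

namespace Pool.Agent.H607Z.Flute

open Set Filter Topology Metric ComplexConjugate
open UpperHalfPlane hiding I
open Complex

/-- Blaschke factor -/
noncomputable def bl (z w : ℂ) : ℂ := (z - w) / (z - conj w)

lemma im_le_norm_sub_conj {z : ℂ} (w : ℍ) : z.im ≤ ‖z - conj (w : ℂ)‖ := by
  have h1 := Complex.abs_im_le_norm (z - conj (w : ℂ))
  have h2 : (z - conj (w : ℂ)).im = z.im + w.im := by simp
  have h3 := w.im_pos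
  rw [h2] at h1
  linarith [le_abs_self (z.im + w.im)]

lemma sub_conj_ne {z : ℂ} (hz : 0 < z.im) (w : ℍ) : z - conj (w : ℂ) ≠ 0 :=
  norm_pos_iff.1 (hz.trans_le (im_le_norm_sub_conj w))

lemma norm_bl (z w : ℍ) : ‖bl z w‖ = Real.tanh (dist z w / 2) := by
  rw [tanh_half_dist, bl, norm_div, dist_eq_norm, dist_eq_norm]

lemma norm_bl_le {z : ℂ} (hz : 0 < z.im) (w : ℍ) : ‖bl z w‖ ≤ 1 := by
  have := norm_bl ⟨z, hz⟩ w
  rw [show ((⟨z, hz⟩ : ℍ) : ℂ) = z from rfl] at this
  rw [this]
  exact (Real.tanh_lt_one _).le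

/-- the weight of a point -/
noncomputable def wt (w : ℍ) : ℝ := w.im / ‖(w : ℂ) + I‖ ^ 2

/-- the local constant -/
noncomputable def cst (z : ℂ) : ℝ := 2 * ‖z + I‖ * (1 + ‖z - I‖ / z.im)

lemma add_I_ne (w : ℍ) : (w : ℂ) + I ≠ 0 := by
  intro h
  have h1 := congrArg Complex.im h
  have h2 := w.im_pos
  simp at h1
  linarith

lemma wt_nonneg (w : ℍ) : 0 ≤ wt w := div_nonneg w.im_pos.le (by positivity)

lemma bl_bound {z : ℂ} (hz : 0 < z.im) (w : ℍ) :
    ‖bl z w * conj (bl I w) - 1‖ ≤ cst z * wt w := by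
  have h1 := sub_conj_ne hz w
  have h2 := add_I_ne w
  have h3 : -I - (w : ℂ) ≠ 0 := by
    intro h; apply h2; linear_combination -h
  have e : bl z w * conj (bl I w) - 1 =
      ((w : ℂ) - conj (w : ℂ)) * (z + I) / ((z - conj (w : ℂ)) * (-I - w)) := by
    simp only [bl, map_div₀, map_sub, conj_I, conj_conj]
    field_simp
    ring
  have n1 : ‖(w : ℂ) - conj (w : ℂ)‖ = 2 * w.im := by
    rw [sub_conj, norm_mul, norm_I, mul_one, norm_real, Real.norm_of_nonneg]
    · rfl
    · exact mul_nonneg two_pos.le w.im_pos.le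
  have n2 : ‖-I - (w : ℂ)‖ = ‖(w : ℂ) + I‖ := by
    rw [← norm_neg]; congr 1; ring
  have n3 : ‖(w : ℂ) + I‖ ≤ ‖z - conj (w : ℂ)‖ * (1 + ‖z - I‖ / z.im) := by
    have a1 : ‖(w : ℂ) + I‖ = ‖(z - I) - (z - conj (w : ℂ))‖ := by
      rw [← Complex.norm_conj]; congr 1; simp; ring
    have a2 := norm_sub_le (z - I) (z - conj (w : ℂ))
    have a3 : ‖z - I‖ ≤ ‖z - conj (w : ℂ)‖ * (‖z - I‖ / z.im) := by
      rw [← mul_div_assoc, le_div_iff₀ hz, mul_comm]
      exact mul_le_mul_of_nonneg_right (im_le_norm_sub_conj w) (norm_nonneg _)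
    rw [a1, mul_add, mul_one]
    linarith
  have p1 := norm_pos_iff.2 h1
  have p2 := norm_pos_iff.2 h2
  have p3 := w.im_pos
  rw [e, norm_div, norm_mul, norm_mul, n1, n2, cst, wt, ← mul_div_assoc,
    div_le_div_iff₀ (by positivity) (by positivity)]
  have := mul_le_mul_of_nonneg_left n3
    (show 0 ≤ 2 * w.im * ‖z + I‖ * ‖(w : ℂ) + I‖ by positivity)
  nlinarith only [this]

variable {ι : Type*} {w : ι → ℍ}

/-- modulus of the Blaschke product -/
noncomputable def EE (w : ι → ℍ) (z : ℂ) : ℝ := ∏' i, ‖bl z (w i)‖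

lemma summable_u (hs : Summable fun i => wt (w i)) {z : ℂ} (hz : 0 < z.im) :
    Summable fun i => ‖bl z (w i) * conj (bl I (w i)) - 1‖ :=
  (hs.mul_left (cst z)).of_nonneg_of_le (fun _ => norm_nonneg _) fun i => bl_bound hz (w i)

lemma multipliable_norm_bl (hs : Summable fun i => wt (w i)) {z : ℂ} (hz : 0 < z.im) :
    Multipliable fun i => ‖bl z (w i)‖ := by
  have h1 : Summable fun i => 1 - ‖bl z (w i)‖ := by
    refine (summable_u hs hz).of_nonneg_of_le (fun i => sub_nonneg.2 (norm_bl_le hz _)) fun i => ?_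
    have a1 := norm_sub_norm_le (1 : ℂ) (bl z (w i) * conj (bl I (w i)))
    rw [norm_one, norm_mul, Complex.norm_conj, norm_sub_rev] at a1
    have a2 := mul_le_mul_of_nonneg_left (norm_bl_le (z := I) (by simp) (w i))
      (norm_nonneg (bl z (w i)))
    linarith
  have h2 := Real.multipliable_one_add_of_summable h1.neg
  simpa using h2

lemma EE_le_one (hs : Summable fun i => wt (w i)) {z : ℂ} (hz : 0 < z.im) : EE w z ≤ 1 :=
  le_of_tendsto' (multipliable_norm_bl hs hz).hasProd fun _ =>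
    Finset.prod_le_one (fun _ _ => norm_nonneg _) fun _ _ => norm_bl_le hz _

lemma EE_zero (i : ι) : EE w (w i) = 0 := tprod_of_exists_eq_zero ⟨i, by simp [bl]⟩

theorem blaschke (hs : Summable fun i => wt (w i)) (hI : ∀ i, I ≠ (w i : ℂ)) :
    ∃ F : ℂ → ℂ, AnalyticOnNhd ℂ F upperHalfPlaneSet ∧ (∀ z : ℂ, 0 < z.im → EE w z = ‖F z‖) ∧
      ∀ z : ℂ, 0 < z.im → (∀ i, z ≠ w i) → F z ≠ 0 := by
  let u : ι → ℂ → ℂ := fun i z => bl z (w i) * conj (bl I (w i)) - 1
  let B : ℂ → ℂ := fun z => ∏' i, (1 + u i z)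
  have hI0 : (0 : ℝ) < I.im := by simp
  have hu : ∀ i, DifferentiableOn ℂ (u i) upperHalfPlaneSet := by
    intro i
    refine (DifferentiableOn.mul_const ?_ _).sub_const 1
    exact DifferentiableOn.div (by fun_prop) (by fun_prop) fun z hz => sub_conj_ne hz _
  have hB : DifferentiableOn ℂ B upperHalfPlaneSet := by
    have h1 : HasProdLocallyUniformlyOn (fun i z => 1 + u i z) B upperHalfPlaneSet := by
      apply hasProdLocallyUniformlyOn_of_forall_compact isOpen_upperHalfPlaneSet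
      intro K hK hcK
      have hc : ContinuousOn cst K := by
        unfold cst
        refine ContinuousOn.mul (by fun_prop) (ContinuousOn.add (by fun_prop) ?_)
        exact ContinuousOn.div (by fun_prop) (by fun_prop) fun z hz => ne_of_gt (hK hz)
      obtain ⟨C, hC⟩ := hcK.exists_bound_of_continuousOn hc
      refine (hs.mul_left C).hasProdUniformlyOn_one_add hcK (.of_forall fun i z hz => ?_)
        fun i => (hu i).continuousOn.mono hK
      refine (bl_bound (hK hz) (w i)).trans (mul_le_mul_of_nonneg_right ?_ (wt_nonneg _))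
      exact (le_abs_self _).trans (hC z hz)
    refine h1.differentiableOn (.of_forall fun s => ?_) isOpen_upperHalfPlaneSet
    simpa [Finset.prod_fn] using
      DifferentiableOn.finsetProd (u := s) (fun i _ => (hu i).const_add 1)
  have hn : ∀ z : ℂ, 0 < z.im → ‖B z‖ = EE w z * EE w I := by
    intro z hz
    rw [EE, EE, ← (multipliable_norm_bl hs hz).tprod_mul (multipliable_norm_bl hs hI0),
      (multipliable_one_add_of_summable (summable_u hs hz)).norm_tprod]
    congr 1
    funext i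
    simp
  have hne : ∀ z : ℂ, 0 < z.im → (∀ i, z ≠ w i) → B z ≠ 0 := by
    intro z hz h
    refine tprod_one_add_ne_zero_of_summable (fun i => ?_) (summable_u hs hz)
    simp only [u, add_sub_cancel]
    refine mul_ne_zero (div_ne_zero (sub_ne_zero.2 (h i)) (sub_conj_ne hz _)) ?_
    rw [map_ne_zero]
    exact div_ne_zero (sub_ne_zero.2 (hI i)) (sub_conj_ne hI0 _)
  have hE0 : EE w I ≠ 0 := by
    intro h
    have := hn I hI0
    rw [h, mul_zero, norm_eq_zero] at this
    exact hne I hI0 hI this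
  have hEn : 0 ≤ EE w I :=
    ge_of_tendsto' (multipliable_norm_bl hs hI0).hasProd fun _ =>
      Finset.prod_nonneg fun _ _ => norm_nonneg _
  refine ⟨fun z => B z / (EE w I : ℂ),
    (hB.div_const _).analyticOnNhd isOpen_upperHalfPlaneSet, fun z hz => ?_, fun z hz h => ?_⟩
  · rw [norm_div, hn z hz, norm_real, Real.norm_of_nonneg hEn, mul_div_assoc, div_self hE0, mul_one]
  · exact div_ne_zero (hne z hz h) (by exact_mod_cast hE0)

lemma EE_split (hs : Summable fun i => wt (w i)) (j : ι) {z : ℂ} (hz : 0 < z.im) :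
    EE w z = ‖bl z (w j)‖ * EE (fun i : ({j}ᶜ : Set ι) => w i) z := by
  have h1 := multipliable_norm_bl (w := fun i : ({j} : Set ι) => w i) (hs.subtype _) hz
  have h2 := multipliable_norm_bl (w := fun i : ({j}ᶜ : Set ι) => w i) (hs.subtype _) hz
  rw [EE, ← Multipliable.tprod_mul_tprod_compl (f := fun i => ‖bl z (w i)‖) (s := {j}) h1 h2,
    tprod_singleton j (fun i => ‖bl z (w i)‖), EE]

end Pool.Agent.H607Z.Flute
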