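import Mathlib

/-! Flute surfaces as quotients of the upper half plane, and Green functions. -/

namespace Pool.Agent.H607Z.Flute

open Matrix MatrixGroups UpperHalfPlane InnerProductSpace Filter Topology

theorem slide_det (s : ℝ) :
    Matrix.det !![Real.exp (s / 2), 0; 0, Real.exp (-(s / 2))] = 1 := by
  simp [Matrix.det_fin_two, ← Real.exp_add]

/-- translation by hyperbolic distance `s` along the imaginary axis: `z ↦ exp s * z` -/
noncomputable def slide (s : ℝ) : SL(2, ℝ) :=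
  ⟨!![Real.exp (s / 2), 0; 0, Real.exp (-(s / 2))], slide_det s⟩

theorem hop_det (d : ℝ) :
    Matrix.det !![Real.cosh (d / 2), Real.sinh (d / 2); Real.sinh (d / 2), Real.cosh (d / 2)]
      = 1 := by
  simp only [Matrix.det_fin_two_of]
  linarith [Real.cosh_sq_sub_sinh_sq (d / 2)]

/-- translation by hyperbolic distance `d` along the unit circle, from `-1` towards `1` -/
noncomputable def hop (d : ℝ) : SL(2, ℝ) :=
  ⟨!![Real.cosh (d / 2), Real.sinh (d / 2); Real.sinh (d / 2), Real.cosh (d / 2)], hop_det d⟩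

theorem para_det (τ : ℝ) : Matrix.det !![1 + τ, τ; -τ, 1 - τ] = 1 := by
  simp only [Matrix.det_fin_two_of]
  ring

/-- the parabolic element fixing `-1` which acts as `w ↦ w - τ` in the coordinate `w = 1/(z+1)` -/
def para (τ : ℝ) : SL(2, ℝ) := ⟨!![1 + τ, τ; -τ, 1 - τ], para_det τ⟩

/-- length of the orthogeodesic joining the two boundary geodesics, of lengths `a` and `b`,
of the pair of pants with one cusp -/
noncomputable def ortho (a b : ℝ) : ℝ :=
  Real.arcosh ((1 + Real.cosh (a / 2) * Real.cosh (b / 2)) / (Real.sinh (a / 2) * Real.sinh (b / 2)))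

/-- `frame ℓ t n` maps the imaginary axis to the chosen lift of the cuff number `n`, and `i` to the
foot on it of the orthogeodesic going to the cuff number `n + 1`. -/
noncomputable def frame (ℓ t : ℕ → ℝ) : ℕ → SL(2, ℝ)
  | 0 => 1
  | n + 1 => frame ℓ t n * hop (ortho (ℓ n) (ℓ (n + 1))) * slide (t (n + 1) * ℓ (n + 1))

/-- the holonomy of the cuff number `n` -/
noncomputable def cuff (ℓ t : ℕ → ℝ) (n : ℕ) : SL(2, ℝ) :=
  frame ℓ t n * slide (ℓ n) * (frame ℓ t n)⁻¹

/-- the holonomy of one of the two cusps of the first pair of pants -/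
noncomputable def cusp0 (ℓ t : ℕ → ℝ) : SL(2, ℝ) :=
  slide (-(t 0 * ℓ 0) - ℓ 0 / 4) * para (-(Real.cosh (ℓ 0 / 4) / Real.sinh (ℓ 0 / 4))) *
    (slide (-(t 0 * ℓ 0) - ℓ 0 / 4))⁻¹

/-- the Fuchsian group of the flute surface with lengths `ℓ` and relative twists `t` -/
noncomputable def fluteGroup (ℓ t : ℕ → ℝ) : Subgroup SL(2, ℝ) :=
  Subgroup.closure (insert (cusp0 ℓ t) (Set.range (cuff ℓ t)))

/-- `g` is the lift to `U` of a nonnegative function on `U / Γ`, harmonic except for a logarithmic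
pole at the image of `p` -/
structure LogPole (Γ : Subgroup SL(2, ℝ)) (U : Set ℍ) (p : ℍ) (g : ℍ → ℝ) : Prop where
  inv : ∀ z ∈ U, (∀ δ ∈ Γ, δ • p ≠ z) → ∀ γ ∈ Γ, g (γ • z) = g z
  nonneg : ∀ z ∈ U, (∀ δ ∈ Γ, δ • p ≠ z) → 0 ≤ g z
  harm : ∀ z ∈ U, (∀ δ ∈ Γ, δ • p ≠ z) → HarmonicAt (g ∘ ofComplex) (z : ℂ)
  pole : ∃ h : ℂ → ℝ, HarmonicAt h (p : ℂ) ∧
    ∀ᶠ w in 𝓝[≠] (p : ℂ), g (ofComplex w) = -Real.log ‖w - p‖ + h w

/-- `g` is the lift of the Green function of `U / Γ` with pole at the image of `p`: the least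
function of the above kind -/
def IsGreen (Γ : Subgroup SL(2, ℝ)) (U : Set ℍ) (p : ℍ) (g : ℍ → ℝ) : Prop :=
  LogPole Γ U p g ∧ ∀ g', LogPole Γ U p g' → ∀ z ∈ U, (∀ δ ∈ Γ, δ • p ≠ z) → g z ≤ g' z

end Pool.Agent.H607Z.Flute
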