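import Mathlib
import Pool.Agent.H777R2.Pois

/-! Perron's method: greatest harmonic function `u` with `exp u * E ≤ 1`. -/

set_option linter.style.haveILetI false

namespace Pool.Agent.H607Z.Flute

open Complex Set Filter Metric Topology InnerProductSpace Real

/-- local sub-mean value property at a point -/
def SubAt (v : ℂ → ℝ) (z : ℂ) : Prop := ∀ᶠ r in 𝓝[>] (0 : ℝ), v z ≤ circleAverage v z r

lemma eq_of_le_circleAverage {v : ℂ → ℝ} {z : ℂ} {r m : ℝ} (hr : 0 < r)
    (hc : ContinuousOn v (sphere z r)) (hle : ∀ w ∈ sphere z r, v w ≤ m)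
    (hm : m ≤ circleAverage v z r) : v (z + r) = m := by
  by_contra hne
  have hmem : ∀ θ : ℝ, circleMap z r θ ∈ sphere z r := fun θ => circleMap_mem_sphere z hr.le θ
  have h0 : circleMap z r 0 = z + r := by simp [circleMap]
  have hlt : v (z + r) < m := lt_of_le_of_ne (hle _ (h0 ▸ hmem 0)) hne
  have hcont : Continuous fun θ : ℝ => v (circleMap z r θ) :=
    hc.comp_continuous (continuous_circleMap z r) hmem
  have h1 : ∫ θ in (0 : ℝ)..2 * π, v (circleMap z r θ) < ∫ _ in (0 : ℝ)..2 * π, m := by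
    apply intervalIntegral.integral_lt_integral_of_continuousOn_of_le_of_exists_lt two_pi_pos
      hcont.continuousOn continuousOn_const
    · intro θ _
      exact hle _ (hmem θ)
    · exact ⟨0, ⟨le_rfl, two_pi_pos.le⟩, by rw [h0]; exact hlt⟩
  rw [circleAverage_def, smul_eq_mul] at hm
  rw [intervalIntegral.integral_const, smul_eq_mul, sub_zero] at h1
  have h2 : (2 * π)⁻¹ * ∫ θ in (0 : ℝ)..2 * π, v (circleMap z r θ) < (2 * π)⁻¹ * (2 * π * m) :=
    mul_lt_mul_of_pos_left h1 (inv_pos.2 two_pi_pos)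
  rw [← mul_assoc, inv_mul_cancel₀ two_pi_pos.ne', one_mul] at h2
  linarith

/-- maximum principle on a disc -/
theorem maxP {v : ℂ → ℝ} {c : ℂ} {R M : ℝ} (hc : ContinuousOn v (closedBall c R))
    (hs : ∀ z ∈ ball c R, SubAt v z) (hb : ∀ z ∈ sphere c R, v z ≤ M) :
    ∀ z ∈ closedBall c R, v z ≤ M := by
  intro z0 hz0
  have hK : IsCompact (closedBall c R) := isCompact_closedBall c R
  obtain ⟨p, hp, hmax⟩ := hK.exists_isMaxOn ⟨z0, hz0⟩ hc
  by_contra hcon
  rw [not_le] at hcon
  have hpM : M < v p := lt_of_lt_of_le hcon (hmax hz0)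
  set A : Set ℂ := closedBall c R ∩ v ⁻¹' {v p} with hA
  have hAc : IsCompact A :=
    hK.of_isClosed_subset (hc.preimage_isClosed_of_isClosed isClosed_closedBall isClosed_singleton)
      inter_subset_left
  obtain ⟨q, hq, hqmax⟩ := hAc.exists_isMaxOn ⟨p, hp, rfl⟩ continuous_re.continuousOn
  have hqv : v q = v p := hq.2
  have hqb : q ∈ ball c R := by
    rcases (mem_closedBall.1 hq.1).lt_or_eq with h | h
    · exact h
    · have := hb q h
      linarith
  obtain ⟨ε, hε, hεb⟩ := Metric.isOpen_iff.1 isOpen_ball q hqb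
  have hev : ∀ᶠ r in 𝓝[>] (0 : ℝ), r < ε := mem_nhdsWithin_of_mem_nhds (Iio_mem_nhds hε)
  obtain ⟨r, ⟨hr1, hr2⟩, hr0⟩ := (((hs q hqb).and hev).and self_mem_nhdsWithin).exists
  have hr0' : 0 < r := hr0
  have hsub : sphere q r ⊆ closedBall c R := fun w hw =>
    ball_subset_closedBall (hεb (sphere_subset_ball hr2 hw))
  have h1 := eq_of_le_circleAverage (m := v p) hr0' (hc.mono hsub) (fun w hw => hmax (hsub hw))
    (hqv ▸ hr1)
  have h2 : q + r ∈ A := ⟨hsub (by simp [abs_of_pos hr0']), h1⟩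
  have h3 := hqmax h2
  simp only [mem_ofPred_eq, add_re, ofReal_re] at h3
  linarith

lemma eventually_closedBall_subset {s : Set ℂ} {z : ℂ} (hs : s ∈ 𝓝 z) :
    ∀ᶠ r in 𝓝[>] (0 : ℝ), 0 < r ∧ closedBall z r ⊆ s := by
  obtain ⟨ε, hε, hεb⟩ := Metric.mem_nhds_iff.1 hs
  have hev : ∀ᶠ r in 𝓝[>] (0 : ℝ), r < ε := mem_nhdsWithin_of_mem_nhds (Iio_mem_nhds hε)
  filter_upwards [hev, self_mem_nhdsWithin] with r h1 h2
  exact ⟨h2, (closedBall_subset_ball h1).trans hεb⟩

lemma harmonic_mean {h : ℂ → ℝ} {z : ℂ} (hh : HarmonicAt h z) :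
    ∀ᶠ r in 𝓝[>] (0 : ℝ), circleAverage h z r = h z ∧ CircleIntegrable h z r := by
  filter_upwards [eventually_closedBall_subset hh.eventually] with r ⟨h1, h2⟩
  have h3 : HarmonicOnNhd h (closedBall z |r|) := by rw [abs_of_pos h1]; exact h2
  exact ⟨h3.circleAverage_eq, (h3.continuousOn.mono sphere_subset_closedBall).circleIntegrable'⟩

lemma SubAt.of_harmonic {h : ℂ → ℝ} {z : ℂ} (hh : HarmonicAt h z) : SubAt h z := by
  filter_upwards [harmonic_mean hh] with r hr
  exact hr.1.ge

lemma eventually_integrable {v : ℂ → ℝ} {z : ℂ} {U : Set ℂ} (hU : U ∈ 𝓝 z)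
    (hv : ContinuousOn v U) : ∀ᶠ r in 𝓝[>] (0 : ℝ), CircleIntegrable v z r := by
  filter_upwards [eventually_closedBall_subset hU] with r ⟨h1, h2⟩
  exact (hv.mono (sphere_subset_closedBall.trans h2)).circleIntegrable h1.le

lemma SubAt.sub_harmonic {v h : ℂ → ℝ} {z : ℂ} {U : Set ℂ} (hU : U ∈ 𝓝 z)
    (hv : ContinuousOn v U) (hs : SubAt v z) (hh : HarmonicAt h z) :
    SubAt (fun w => v w - h w) z := by
  filter_upwards [hs, harmonic_mean hh, eventually_integrable hU hv] with r h1 h2 h3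
  rw [circleAverage_fun_sub h3 h2.2, h2.1]
  linarith

/-- a function which is at least `v` near `z`, with equality at `z` -/
lemma SubAt.of_ge {v w : ℂ → ℝ} {z : ℂ} {U : Set ℂ} (hU : U ∈ 𝓝 z)
    (hv : ContinuousOn v U) (hw : ContinuousOn w U) (hs : SubAt v z) (hle : ∀ y ∈ U, v y ≤ w y)
    (he : w z = v z) : SubAt w z := by
  filter_upwards [hs, eventually_integrable hU hv, eventually_integrable hU hw,
    eventually_closedBall_subset hU] with r h1 h2 h3 h4
  rw [he]
  refine h1.trans (circleAverage_mono h2 h3 fun y hy => hle y (h4.2 ?_))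
  rw [abs_of_pos h4.1] at hy
  exact sphere_subset_closedBall hy

lemma SubAt.congr {v w : ℂ → ℝ} {z : ℂ} (hs : SubAt v z) (he : w =ᶠ[𝓝 z] v) : SubAt w z := by
  filter_upwards [hs, eventually_closedBall_subset he] with r h1 h2
  rw [he.self_of_nhds, circleAverage_congr_sphere (f₂ := v)]
  · exact h1
  · intro y hy
    rw [abs_of_pos h2.1] at hy
    exact h2.2 (sphere_subset_closedBall hy)

lemma SubAt.norm_analytic {F : ℂ → ℂ} {z : ℂ} (hF : AnalyticAt ℂ F z) :
    SubAt (fun w => ‖F w‖) z := by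
  filter_upwards [eventually_closedBall_subset hF.eventually_analyticAt] with r ⟨h1, h2⟩
  have h3 : DiffContOnCl ℂ F (ball z |r|) := by
    apply DifferentiableOn.diffContOnCl
    rw [abs_of_pos h1, closure_ball z h1.ne']
    exact fun y hy => (h2 hy).differentiableAt.differentiableWithinAt
  rw [← h3.circleAverage, circleAverage_def, circleAverage_def, norm_smul, smul_eq_mul,
    Real.norm_of_nonneg (inv_nonneg.2 two_pi_pos.le)]
  gcongr
  exact intervalIntegral.norm_integral_le_integral_norm two_pi_pos.le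

/-- The Dirichlet problem in the unit disc. -/
theorem disc_one {g : ℂ → ℝ} (hg : ContinuousOn g (sphere (0:ℂ) 1)) :
    ∃ (H : ℂ → ℂ) (u : ℂ → ℝ), DifferentiableOn ℂ H (ball 0 1) ∧ ContinuousOn u (closedBall 0 1) ∧
      (∀ z ∈ ball (0:ℂ) 1, u z = (H z).re) ∧ (∀ z ∈ sphere (0:ℂ) 1, u z = g z) := by
  let φ : ℂ → ℂ := fun z => (g z : ℂ)
  have hφ : ContinuousOn φ (sphere (0:ℂ) 1) := continuous_ofReal.comp_continuousOn hg
  let P : ℂ → ℂ := fun z => ((1 / (2 * Real.pi) : ℝ) : ℂ) *
          ∫ t in (0:ℝ)..(2 * Real.pi),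
            (((1 - ‖z‖ ^ 2) / ‖Complex.exp ((t : ℂ) * Complex.I) - z‖ ^ 2 : ℝ) : ℂ) *
              φ (Complex.exp ((t : ℂ) * Complex.I))
  have hP : H777R2.IsPoisson φ P := fun z _ => rfl
  obtain ⟨H, hH, hHe⟩ := H777R2.harm hP hφ 1
  refine ⟨H, fun z => (H777R2.ext φ P z).re, hH,
    continuous_re.comp_continuousOn (H777R2.ext_cont hP hφ), ?_, ?_⟩
  · intro z hz
    simp only [H777R2.ext_ball hz, hHe z hz, one_mul]
  · intro z hz
    simp only [H777R2.ext_sphere hz, φ, ofReal_re]

/-- The Dirichlet problem in a disc. -/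
theorem dirichlet {c : ℂ} {r : ℝ} (hr : 0 < r) {g : ℂ → ℝ} (hg : ContinuousOn g (sphere c r)) :
    ∃ u : ℂ → ℝ, HarmonicOnNhd u (ball c r) ∧ ContinuousOn u (closedBall c r) ∧
      ∀ z ∈ sphere c r, u z = g z := by
  have hr' : (r : ℂ) ≠ 0 := by exact_mod_cast hr.ne'
  have hg1 : ContinuousOn (fun z : ℂ => g (c + r * z)) (sphere (0:ℂ) 1) := by
    refine hg.comp (by fun_prop) ?_
    intro z hz
    rw [mem_sphere_zero_iff_norm] at hz
    simp [hz, abs_of_pos hr]
  obtain ⟨H, u, h1, h2, h3, h4⟩ := disc_one hg1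
  have hn : ∀ z : ℂ, ‖(z - c) / r‖ = dist z c / r := by
    intro z; simp [abs_of_pos hr, dist_eq_norm]
  have hb : ∀ z ∈ ball c r, (z - c) / r ∈ ball (0:ℂ) 1 := by
    intro z hz
    rw [mem_ball_zero_iff, hn, div_lt_one hr]; exact hz
  refine ⟨fun z => u ((z - c) / r), ?_, ?_, ?_⟩
  · intro z hz
    have a1 : DifferentiableOn ℂ (fun z => H ((z - c) / r)) (ball c r) :=
      h1.comp (by fun_prop) hb
    have a2 := (a1.analyticOnNhd isOpen_ball z hz).harmonicAt_re
    refine (harmonicAt_congr_nhds ?_).1 a2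
    filter_upwards [isOpen_ball.mem_nhds hz] with w hw
    exact (h3 _ (hb w hw)).symm
  · refine h2.comp (by fun_prop) ?_
    intro z hz
    rw [mem_closedBall_zero_iff, hn, div_le_one hr]; exact hz
  · intro z hz
    have : (z - c) / r ∈ sphere (0:ℂ) 1 := by
      rw [mem_sphere_zero_iff_norm, hn, mem_sphere.1 hz, div_self hr.ne']
    simp only [h4 _ this]
    congr 1
    field_simp
    ring

lemma harnack {h : ℂ → ℝ} {c w : ℂ} {R : ℝ} (hh : HarmonicOnNhd h (closedBall c R))
    (hpos : ∀ z ∈ sphere c R, 0 ≤ h z) (hw : w ∈ ball c R) :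
    h w ≤ (R + ‖w - c‖) / (R - ‖w - c‖) * h c := by
  have hR : 0 < R := pos_of_mem_ball hw
  have hc : ContinuousOn h (sphere c |R|) := by
    rw [abs_of_pos hR]; exact hh.continuousOn.mono sphere_subset_closedBall
  have h1 : HarmonicOnNhd h (closedBall c |R|) := by rw [abs_of_pos hR]; exact hh
  rw [← hh.circleAverage_re_herglotzRieszKernel_smul hw, ← h1.circleAverage_eq, ← smul_eq_mul,
    ← circleAverage_smul]
  apply circleAverage_mono
  · exact ((continuous_re.comp_continuousOn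
      (continuousOn_herglotzRieszKernel_sphere hw)).smul hc).circleIntegrable'
  · exact (hc.const_smul _).circleIntegrable'
  · intro z hz
    rw [abs_of_pos hR] at hz
    simp only [Pi.smul_apply', Function.comp_apply, smul_eq_mul, Pi.smul_apply]
    exact mul_le_mul_of_nonneg_right (re_herglotzRieszKernel_le hz hw) (hpos z hz)

/-- a uniform limit of harmonic functions is harmonic -/
lemma harmonic_of_approx {u : ℂ → ℝ} {c : ℂ} {R : ℝ} (hR : 0 < R)
    (happ : ∀ ε > 0, ∃ h : ℂ → ℝ, HarmonicOnNhd h (closedBall c R) ∧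
      ∀ z ∈ closedBall c R, |u z - h z| ≤ ε) : HarmonicAt u c := by
  have hcont : ContinuousOn u (closedBall c R) := by
    apply continuousOn_of_uniform_approx_of_continuousOn
    intro s hs
    obtain ⟨ε, hε, hεs⟩ := Metric.mem_uniformity_dist.1 hs
    obtain ⟨h, hh, hle⟩ := happ (ε / 2) (by positivity)
    refine ⟨h, hh.continuousOn, fun y hy => hεs ?_⟩
    rw [Real.dist_eq]
    linarith [hle y hy]
  have hcs : ContinuousOn u (sphere c |R|) := by
    rw [abs_of_pos hR]; exact hcont.mono sphere_subset_closedBall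
  have hrep : ∀ w ∈ ball c R, u w = circleAverage ((re ∘ herglotzRieszKernel c w) • u) c R := by
    intro w hw
    have hk : ContinuousOn (re ∘ herglotzRieszKernel c w) (sphere c |R|) :=
      continuous_re.comp_continuousOn (continuousOn_herglotzRieszKernel_sphere hw)
    set K := (R + ‖w - c‖) / (R - ‖w - c‖) with hK
    have hwR : ‖w - c‖ < R := mem_ball_iff_norm.1 hw
    have hK0 : 0 < K := div_pos (by positivity) (by linarith)
    apply eq_of_forall_dist_le
    intro ε hε
    obtain ⟨h, hh, hle⟩ := happ (ε / (1 + K)) (by positivity)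
    have hhs : ContinuousOn h (sphere c |R|) := by
      rw [abs_of_pos hR]; exact hh.continuousOn.mono sphere_subset_closedBall
    have e1 := hh.circleAverage_re_herglotzRieszKernel_smul hw
    have i1 : CircleIntegrable ((re ∘ herglotzRieszKernel c w) • u) c R :=
      (hk.smul hcs).circleIntegrable'
    have i2 : CircleIntegrable ((re ∘ herglotzRieszKernel c w) • h) c R :=
      (hk.smul hhs).circleIntegrable'
    have e2 : |circleAverage ((re ∘ herglotzRieszKernel c w) • u) c R - h w| ≤ K * (ε / (1 + K)) := by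
      rw [← e1, ← circleAverage_sub i1 i2]
      refine abs_circleAverage_le_circleAverage_abs.trans ?_
      apply circleAverage_mono_on_of_le_circle (i1.sub i2).abs
      intro z hz
      rw [abs_of_pos hR] at hz
      have k1 := re_herglotzRieszKernel_le hz hw
      have k2 := le_re_herglotzRieszKernel hz hw
      have k3 : 0 ≤ (R - ‖w - c‖) / (R + ‖w - c‖) := div_nonneg (by linarith) (by positivity)
      show |(herglotzRieszKernel c w z).re * u z - (herglotzRieszKernel c w z).re * h z| ≤ _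
      rw [← mul_sub, abs_mul]
      apply mul_le_mul _ (hle z (sphere_subset_closedBall hz)) (abs_nonneg _) hK0.le
      exact abs_le.2 ⟨le_trans (by linarith) (k3.trans k2), k1⟩
    have e3 := hle w (ball_subset_closedBall hw)
    rw [Real.dist_eq]
    have e4 : ε / (1 + K) + K * (ε / (1 + K)) = ε := by field_simp
    have e5 := abs_sub_le (u w) (h w) (circleAverage ((re ∘ herglotzRieszKernel c w) • u) c R)
    rw [abs_sub_comm (h w)] at e5
    linarith
  have hci : CircleIntegrable (fun ζ => u (ζ + c)) 0 R := by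
    refine ContinuousOn.circleIntegrable hR.le (hcont.comp (by fun_prop) ?_)
    intro z hz
    rw [mem_sphere_zero_iff_norm] at hz
    simp [hz]
  have hci' : CircleIntegrable (fun ζ => ((u (ζ + c) : ℝ) : ℂ)) 0 R := by
    simp only [CircleIntegrable, intervalIntegrable_iff] at hci ⊢
    exact Complex.ofRealCLM.integrable_comp hci
  have han := analyticOnNhd_circleAverage_herglotzRieszKernel_smul hci' 0 (mem_ball_self hR)
  have han2 : AnalyticAt ℂ (fun w => circleAverage
      (fun ζ ↦ herglotzRieszKernel 0 (w - c) ζ • ((u (ζ + c) : ℝ) : ℂ)) 0 R) c := by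
    have : AnalyticAt ℂ (fun w : ℂ => w - c) c := by fun_prop
    exact AnalyticAt.comp_of_eq (g := fun w => circleAverage
      (fun ζ ↦ herglotzRieszKernel 0 w ζ • ((u (ζ + c) : ℝ) : ℂ)) 0 R) (f := fun w => w - c)
      han this (sub_self c)
  refine (harmonicAt_congr_nhds ?_).1 han2.harmonicAt_re
  filter_upwards [ball_mem_nhds c hR] with w hw
  have hw0 : w - c ∈ ball (0 : ℂ) R := by simpa [dist_eq_norm] using hw
  rw [re_circleAverage_herglotzRieszKernel_smul hci hw0, hrep w hw,
    ← circleAverage_map_add_const (c := c)]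
  congr 1
  funext z
  simp [herglotzRieszKernel_def]

section Perron

variable {U : Set ℂ} {E : ℂ → ℝ}

/-- the Perron family -/
structure Fam (U : Set ℂ) (E : ℂ → ℝ) (v : ℂ → ℝ) : Prop where
  cont : ContinuousOn v U
  sub : ∀ z ∈ U, SubAt v z
  le : ∀ z ∈ U, Real.exp (v z) * E z ≤ 1

lemma Fam.max (hU : IsOpen U) {v w : ℂ → ℝ} (hv : Fam U E v) (hw : Fam U E w) :
    Fam U E (fun z => max (v z) (w z)) where
  cont := hv.cont.sup hw.cont
  sub z hz := by
    rcases le_total (v z) (w z) with h | h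
    · exact SubAt.of_ge (hU.mem_nhds hz) hw.cont (hv.cont.sup hw.cont) (hw.sub z hz)
        (fun y _ => le_max_right _ _) (max_eq_right h)
    · exact SubAt.of_ge (hU.mem_nhds hz) hv.cont (hv.cont.sup hw.cont) (hv.sub z hz)
        (fun y _ => le_max_left _ _) (max_eq_left h)
  le z hz := by
    rcases le_total (v z) (w z) with h | h
    · rw [max_eq_right h]; exact hw.le z hz
    · rw [max_eq_left h]; exact hv.le z hz

lemma subAt_exp_mul {h : ℂ → ℝ} {z : ℂ} (hh : HarmonicAt h z)
    (hE : ∃ F : ℂ → ℂ, AnalyticAt ℂ F z ∧ E =ᶠ[𝓝 z] fun w => ‖F w‖) :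
    SubAt (fun w => Real.exp (h w) * E w) z := by
  obtain ⟨F, hF, hEF⟩ := hE
  obtain ⟨ε, hε, hεb⟩ := Metric.mem_nhds_iff.1 hh.eventually
  obtain ⟨G, hG, hGe⟩ := HarmonicOnNhd.exists_analyticOnNhd_ball_re_eq (f := h) hεb
  have h1 : AnalyticAt ℂ (fun w => cexp (G w) * F w) z := (hG z (mem_ball_self hε)).cexp.mul hF
  refine (SubAt.norm_analytic h1).congr ?_
  filter_upwards [hEF, ball_mem_nhds z hε] with w h2 h3
  rw [norm_mul, norm_exp, h2, ← hGe h3]

lemma Fam.modify (hU : IsOpen U)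
    (hE : ∀ z ∈ U, ∃ F : ℂ → ℂ, AnalyticAt ℂ F z ∧ E =ᶠ[𝓝 z] fun w => ‖F w‖)
    {v : ℂ → ℝ} (hv : Fam U E v) {c : ℂ} {R : ℝ} (hR : 0 < R) (hb : closedBall c R ⊆ U) :
    ∃ w : ℂ → ℝ, Fam U E w ∧ (∀ z ∈ U, v z ≤ w z) ∧ HarmonicOnNhd w (ball c R) := by
  classical
  obtain ⟨u, hu1, hu2, hu3⟩ := dirichlet hR (hv.cont.mono (sphere_subset_closedBall.trans hb))
  have hEc : ContinuousOn E U := by
    intro z hz
    obtain ⟨F, hF, hEF⟩ := hE z hz
    exact (hF.continuousAt.norm.congr hEF.symm).continuousWithinAt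
  have hvu : ∀ z ∈ closedBall c R, v z - u z ≤ 0 := by
    apply maxP ((hv.cont.mono hb).sub hu2)
    · intro z hz
      have hzU := hb (ball_subset_closedBall hz)
      exact SubAt.sub_harmonic (hU.mem_nhds hzU) hv.cont (hv.sub z hzU) (hu1 z hz)
    · intro z hz
      show v z - u z ≤ 0
      rw [hu3 z hz, sub_self]
  have huE : ∀ z ∈ closedBall c R, Real.exp (u z) * E z ≤ 1 := by
    apply maxP ((Real.continuous_exp.comp_continuousOn hu2).mul (hEc.mono hb))
    · intro z hz
      exact subAt_exp_mul (hu1 z hz) (hE z (hb (ball_subset_closedBall hz)))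
    · intro z hz
      show Real.exp (u z) * E z ≤ 1
      rw [hu3 z hz]
      exact hv.le z (hb (sphere_subset_closedBall hz))
  let w : ℂ → ℝ := (closedBall c R).piecewise u v
  have hwin : ∀ z ∈ closedBall c R, w z = u z := fun z hz => piecewise_eq_of_mem _ _ _ hz
  have hwout : ∀ z, z ∉ ball c R → w z = v z := by
    intro z hz
    by_cases h : z ∈ closedBall c R
    · rw [hwin z h, hu3 z]
      exact le_antisymm h (not_lt.1 hz)
    · exact piecewise_eq_of_notMem _ _ _ h
  have hge : ∀ z ∈ U, v z ≤ w z := by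
    intro z _
    by_cases h : z ∈ closedBall c R
    · rw [hwin z h]; linarith [hvu z h]
    · rw [hwout z (fun h' => h (ball_subset_closedBall h'))]
  have hwc : ContinuousOn w U := by
    apply ContinuousOn.piecewise
    · intro z hz
      rw [frontier_closedBall c hR.ne'] at hz
      exact hu3 z hz.2
    · rw [isClosed_closedBall.closure_eq]
      exact hu2.mono inter_subset_right
    · exact hv.cont.mono inter_subset_left
  have hwh : HarmonicOnNhd w (ball c R) := by
    intro z hz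
    refine (harmonicAt_congr_nhds ?_).1 (hu1 z hz)
    filter_upwards [isOpen_ball.mem_nhds hz] with y hy
    exact (hwin y (ball_subset_closedBall hy)).symm
  refine ⟨w, ⟨hwc, ?_, ?_⟩, hge, hwh⟩
  · intro z hz
    by_cases h : z ∈ ball c R
    · exact SubAt.of_harmonic (hwh z h)
    · exact SubAt.of_ge (hU.mem_nhds hz) hv.cont hwc (hv.sub z hz) hge (hwout z h)
  · intro z hz
    by_cases h : z ∈ closedBall c R
    · rw [hwin z h]; exact huE z h
    · rw [hwout z (fun h' => h (ball_subset_closedBall h'))]; exact hv.le z hz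

/-- Perron's theorem in the form needed -/
theorem perron (hU : IsOpen U)
    (hE : ∀ z ∈ U, ∃ F : ℂ → ℂ, AnalyticAt ℂ F z ∧ E =ᶠ[𝓝 z] fun w => ‖F w‖)
    (hE1 : ∀ z ∈ U, E z ≤ 1) (hE0 : ∀ z ∈ U, ∀ᶠ w in 𝓝[≠] z, E w ≠ 0) :
    ∃ u : ℂ → ℝ, HarmonicOnNhd u U ∧ (∀ z ∈ U, Real.exp (u z) * E z ≤ 1) ∧
      ∀ v : ℂ → ℝ, HarmonicOnNhd v U → (∀ z ∈ U, Real.exp (v z) * E z ≤ 1) →
        ∀ z ∈ U, v z ≤ u z := by
  have hEc : ContinuousOn E U := by
    intro z hz
    obtain ⟨F, hF, hEF⟩ := hE z hz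
    exact (hF.continuousAt.norm.congr hEF.symm).continuousWithinAt
  have hEnn : ∀ z ∈ U, 0 ≤ E z := by
    intro z hz
    obtain ⟨F, -, hEF⟩ := hE z hz
    rw [hEF.self_of_nhds]; exact norm_nonneg _
  have h0 : Fam U E (fun _ => 0) :=
    ⟨continuousOn_const, fun z _ => SubAt.of_harmonic (harmonicAt_const 0), fun z hz => by
      simpa using hE1 z hz⟩
  haveI : Nonempty {v // Fam U E v} := ⟨⟨_, h0⟩⟩
  have hloc : ∀ c ∈ U, ∃ R > 0, closedBall c R ⊆ U ∧ ∃ K : ℝ, ∀ v, Fam U E v →
      ∀ z ∈ closedBall c R, v z ≤ K := by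
    intro c hc
    have h1 : {w | w ∈ U ∧ (w ≠ c → E w ≠ 0)} ∈ 𝓝 c := by
      filter_upwards [hU.mem_nhds hc, eventually_nhdsWithin_iff.1 (hE0 c hc)] with w h1 h2
      exact ⟨h1, h2⟩
    obtain ⟨R, hR, hRs⟩ := (eventually_closedBall_subset h1).exists
    have hRU : closedBall c R ⊆ U := fun w hw => (hRs hw).1
    have hne : (sphere c R).Nonempty := NormedSpace.sphere_nonempty.2 hR.le
    obtain ⟨q, hq, hqmin⟩ := (isCompact_sphere c R).exists_isMinOn hne
      (hEc.mono (sphere_subset_closedBall.trans hRU))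
    have hqc : q ≠ c := by
      rintro rfl
      simp at hq
      exact hR.ne hq
    have hδ : 0 < E q := lt_of_le_of_ne (hEnn q (hRU (sphere_subset_closedBall hq)))
      ((hRs (sphere_subset_closedBall hq)).2 hqc).symm
    refine ⟨R, hR, hRU, -Real.log (E q), fun v hv => maxP (hv.cont.mono hRU)
      (fun z hz => hv.sub z (hRU (ball_subset_closedBall hz))) ?_⟩
    intro z hz
    have h2 := hv.le z (hRU (sphere_subset_closedBall hz))
    have h3 : E q ≤ E z := hqmin hz
    have h4 : Real.exp (v z) * E q ≤ 1 :=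
      (mul_le_mul_of_nonneg_left h3 (Real.exp_pos _).le).trans h2
    have h5 := Real.log_le_log (by positivity) h4
    rw [Real.log_mul (Real.exp_pos _).ne' hδ.ne', Real.log_exp, Real.log_one] at h5
    linarith
  let u : ℂ → ℝ := fun z => ⨆ v : {v // Fam U E v}, v.1 z
  have hbdd : ∀ z ∈ U, BddAbove (range fun v : {v // Fam U E v} => v.1 z) := by
    intro z hz
    obtain ⟨R, hR, -, K, hK⟩ := hloc z hz
    exact ⟨K, by rintro _ ⟨v, rfl⟩; exact hK v.1 v.2 z (mem_closedBall_self hR.le)⟩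
  have hle : ∀ v, Fam U E v → ∀ z ∈ U, v z ≤ u z := fun v hv z hz =>
    le_ciSup (hbdd z hz) (⟨v, hv⟩ : {v // Fam U E v})
  refine ⟨u, ?_, ?_, ?_⟩
  · intro c hc
    obtain ⟨R, hR, hRU, -⟩ := hloc c hc
    apply harmonic_of_approx (R := R / 4) (by positivity)
    intro ε hε
    obtain ⟨v, hv⟩ := exists_lt_of_lt_ciSup (show u c - ε / 3 < u c by linarith)
    obtain ⟨w, hw, hvw, hwh⟩ := v.2.modify hU hE hR hRU
    have hs1 : closedBall c (R / 2) ⊆ ball c R := closedBall_subset_ball (by linarith)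
    have hs2 : closedBall c (R / 4) ⊆ ball c (R / 2) := closedBall_subset_ball (by linarith)
    have hs3 : ball c R ⊆ U := ball_subset_closedBall.trans hRU
    refine ⟨w, hwh.mono (hs2.trans (ball_subset_closedBall.trans hs1)), fun z hz => ?_⟩
    have hzU : z ∈ U := hs3 (hs1 (ball_subset_closedBall (hs2 hz)))
    rw [abs_of_nonneg (sub_nonneg.2 (hle w hw z hzU)), sub_le_iff_le_add']
    apply ciSup_le
    intro v'
    obtain ⟨w', hw', hvw', hwh'⟩ := (hw.max hU v'.2).modify hU hE hR hRU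
    have k1 := harnack (h := w' - w) (c := c) (w := z) (R := R / 2)
      ((hwh'.sub hwh).mono hs1) (fun y hy => by
        have := hvw' y (hs3 (hs1 (sphere_subset_closedBall hy)))
        simp only [Pi.sub_apply, sub_nonneg]
        exact (le_max_left _ _).trans this) (hs2 hz)
    simp only [Pi.sub_apply] at k1
    have k2 : ‖z - c‖ ≤ R / 4 := mem_closedBall_iff_norm.1 hz
    have k3 : (R / 2 + ‖z - c‖) / (R / 2 - ‖z - c‖) ≤ 3 := by
      rw [div_le_iff₀ (by linarith)]; linarith
    have k4 : 0 ≤ w' c - w c := sub_nonneg.2 ((le_max_left _ _).trans (hvw' c hc))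
    have k5 : w' c - w c ≤ ε / 3 := by
      have := hle w' hw' c hc
      have := hvw c hc
      linarith
    have k6 : v'.1 z ≤ w' z := (le_max_right _ _).trans (hvw' z hzU)
    nlinarith
  · intro z hz
    rcases (hEnn z hz).eq_or_lt with h | h
    · rw [← h]; simp
    · have : u z ≤ -Real.log (E z) := by
        apply ciSup_le
        intro v
        have h5 := Real.log_le_log (by positivity) (v.2.le z hz)
        rw [Real.log_mul (Real.exp_pos _).ne' h.ne', Real.log_exp, Real.log_one] at h5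
        linarith
      calc Real.exp (u z) * E z ≤ Real.exp (-Real.log (E z)) * E z := by gcongr
        _ = 1 := by rw [Real.exp_neg, Real.exp_log h, inv_mul_cancel₀ h.ne']
  · intro v hv hvE z hz
    exact hle v ⟨hv.continuousOn, fun y hy => SubAt.of_harmonic (hv y hy), hvE⟩ z hz

end Perron

end Pool.Agent.H607Z.Flute
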