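import Mathlib
import Pool.Agent.H607Z.Flute.Defs

/-! Klein's combination lemma and translations in a coordinate. -/

namespace Pool.Agent.H607Z.Flute

open Set MatrixGroups

section Abstract

variable {G X : Type*} [Group G] [MulAction G X]

/-- elements reached by an alternating walk -/
inductive KR (H : Bool → Subgroup G) (Δ : Bool → Set X) (x : X) : G → Prop
  | one : KR H Δ x 1
  | step (i : Bool) (γ g : G) : KR H Δ x γ → γ • x ∈ Δ i → g ∈ H i → g ≠ 1 → KR H Δ x (g * γ)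

theorem klein_aux (H : Bool → Subgroup G) (Δ : Bool → Set X)
    (hΔ : ∀ i, ∀ g ∈ H i, ∀ y ∈ Δ i, g • y ∈ Δ i → g = 1) (x : X) (hx : ∀ i, x ∈ Δ i)
    (hc : ∀ γ : G, γ • x ∈ Δ true ∨ γ • x ∈ Δ false) {γ : G} (hγ : γ ∈ H true ⊔ H false)
    (hγx : ∀ i, γ • x ∈ Δ i) : γ = 1 := by
  have key : ∀ i, ∀ g ∈ H i, ∀ δ, KR H Δ x δ → KR H Δ x (g * δ) := by
    intro i g hg δ hδ
    by_cases hg1 : g = 1
    · rw [hg1, one_mul]; exact hδ
    cases hδ with
    | one => exact KR.step i 1 g KR.one (by simpa using hx i) hg hg1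
    | step j γ' h h1 h2 h3 h4 =>
      by_cases hij : j = i
      · subst hij
        rw [← mul_assoc]
        by_cases hgh : g * h = 1
        · rw [hgh, one_mul]; exact h1
        · exact KR.step j γ' (g * h) h1 h2 (mul_mem hg h3) hgh
      · have h5 : (h * γ') • x ∉ Δ j := by
          rw [mul_smul]; exact fun h6 => h4 (hΔ j h h3 _ h2 h6)
        have h6 : (h * γ') • x ∈ Δ i := by
          rcases hc (h * γ') with h7 | h7
          · cases i
            · cases j
              · exact absurd rfl hij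
              · exact absurd h7 h5
            · exact h7
          · cases i
            · exact h7
            · cases j
              · exact absurd h7 h5
              · exact absurd rfl hij
        exact KR.step i _ g (KR.step j γ' h h1 h2 h3 h4) h6 hg hg1
  have hR : KR H Δ x γ := by
    rw [Subgroup.sup_eq_closure] at hγ
    clear hγx
    induction hγ using Subgroup.closure_induction_left with
    | one => exact KR.one
    | mul_left g hg y _ ih =>
      rcases hg with hg | hg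
      · exact key _ g hg y ih
      · exact key _ g hg y ih
    | inv_mul_cancel g hg y _ ih =>
      rcases hg with hg | hg
      · exact key _ g⁻¹ (inv_mem (show g ∈ H true from hg)) y ih
      · exact key _ g⁻¹ (inv_mem (show g ∈ H false from hg)) y ih
  cases hR with
  | one => rfl
  | step j γ' h h1 h2 h3 h4 =>
    have := hγx j
    rw [mul_smul] at this
    exact absurd (hΔ j h h3 _ h2 this) h4

/-- Klein's combination lemma -/
theorem klein (H1 H2 : Subgroup G) (D1 D2 : Set X)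
    (h1 : ∀ g ∈ H1, ∀ y ∈ D1, g • y ∈ D1 → g = 1) (h2 : ∀ g ∈ H2, ∀ y ∈ D2, g • y ∈ D2 → g = 1)
    {x : X} (hx1 : x ∈ D1) (hx2 : x ∈ D2) (hc : ∀ γ : G, γ • x ∉ D2 → γ • x ∈ D1)
    {γ : G} (hγ : γ ∈ H1 ⊔ H2) (hy1 : γ • x ∈ D1) (hy2 : γ • x ∈ D2) : γ = 1 := by
  refine klein_aux (fun i => cond i H1 H2) (fun i => cond i D1 D2) ?_ x ?_ ?_ hγ ?_
  · intro i; cases i
    · exact h2
    · exact h1
  · intro i; cases i
    · exact hx2
    · exact hx1
  · intro γ
    by_cases h : γ • x ∈ D2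
    · exact Or.inr h
    · exact Or.inl (hc γ h)
  · intro i; cases i
    · exact hy2
    · exact hy1

/-- `P` preserves `D` and acts on it as translation by `T` in the coordinate `φ` -/
def Transl (P : G) (D : Set X) (φ : X → ℝ) (T : ℝ) : Prop :=
  ∀ v, (P • v ∈ D ↔ v ∈ D) ∧ (v ∈ D → φ (P • v) = φ v + T)

variable {P Q : G} {D : Set X} {φ : X → ℝ} {T S : ℝ}

lemma Transl.mul (hP : Transl P D φ T) (hQ : Transl Q D φ S) : Transl (P * Q) D φ (T + S) := by
  intro v
  rw [mul_smul]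
  refine ⟨(hP _).1.trans (hQ _).1, fun hv => ?_⟩
  rw [(hP _).2 ((hQ _).1.2 hv), (hQ _).2 hv]; ring

lemma Transl.inv (hP : Transl P D φ T) : Transl P⁻¹ D φ (-T) := by
  intro v
  have h := hP (P⁻¹ • v)
  rw [smul_inv_smul] at h
  refine ⟨h.1.symm, fun hv => ?_⟩
  rw [h.2 (h.1.1 hv)]; ring

lemma Transl.zpow (hP : Transl P D φ T) (k : ℤ) : Transl (P ^ k) D φ (k * T) := by
  induction k using Int.induction_on with
  | zero => intro v; simp
  | succ n ih =>
    have := ih.mul hP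
    rw [← zpow_add_one] at this
    convert this using 1
    push_cast; ring
  | pred n ih =>
    have := ih.mul hP.inv
    rw [← zpow_sub_one] at this
    convert this using 1
    push_cast; ring

lemma Transl.eq_one (hP : Transl P D φ T) (c : ℝ) {g : G} (hg : g ∈ Subgroup.zpowers P) {v : X}
    (hv : v ∈ D) (h1 : φ v ∈ Ioc c (c + T)) (h2 : φ (g • v) ∈ Ioc c (c + T)) : g = 1 := by
  obtain ⟨k, rfl⟩ := hg
  simp only at h2 ⊢
  rw [(hP.zpow k v).2 hv] at h2
  have hT : 0 < T := by linarith [h1.1, h1.2]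
  have a1 : (k : ℝ) < 1 := by
    by_contra h
    have : (1 : ℝ) * T ≤ k * T := mul_le_mul_of_nonneg_right (not_lt.1 h) hT.le
    linarith [h1.1, h2.2]
  have a2 : (-1 : ℝ) < k := by
    by_contra h
    have : k * T ≤ (-1 : ℝ) * T := mul_le_mul_of_nonneg_right (not_lt.1 h) hT.le
    linarith [h1.2, h2.1]
  have a3 : k < 1 := by exact_mod_cast a1
  have a4 : -1 < k := by exact_mod_cast a2
  have : k = 0 := by omega
  rw [this, zpow_zero]

lemma Transl.red (hP : Transl P D φ T) (hT : 0 < T) (c : ℝ) {v : X} (hv : v ∈ D) :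
    (P ^ (-toIocDiv hT c (φ v))) • v ∈ D ∧
      φ ((P ^ (-toIocDiv hT c (φ v))) • v) = toIocMod hT c (φ v) := by
  have h := hP.zpow (-toIocDiv hT c (φ v)) v
  refine ⟨h.1.2 hv, ?_⟩
  rw [h.2 hv, toIocMod, zsmul_eq_mul]
  push_cast; ring

lemma Transl.mem_zpowers (hP : Transl P D φ T) (hT : 0 < T) (c : ℝ) {Γ : Subgroup G} (hPΓ : P ∈ Γ)
    (h : ∀ γ ∈ Γ, ∀ v ∈ D, γ • v ∈ D → φ v ∈ Ioc c (c + T) → φ (γ • v) ∈ Ioc c (c + T) → γ = 1) :
    ∀ γ ∈ Γ, ∀ v ∈ D, γ • v ∈ D → γ ∈ Subgroup.zpowers P := by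
  intro γ hγ v hv hγv
  obtain ⟨a1, a2⟩ := hP.red hT c hv
  obtain ⟨b1, b2⟩ := hP.red hT c hγv
  set k := -toIocDiv hT c (φ v)
  set m := -toIocDiv hT c (φ (γ • v))
  have e : (P ^ m * γ * (P ^ k)⁻¹) • (P ^ k • v) = P ^ m • γ • v := by
    rw [mul_smul, mul_smul, inv_smul_smul]
  have := h (P ^ m * γ * (P ^ k)⁻¹)
    (mul_mem (mul_mem (zpow_mem hPΓ _) hγ) (inv_mem (zpow_mem hPΓ _))) _ a1 (by rw [e]; exact b1)
    (by rw [a2]; exact toIocMod_mem_Ioc _ _ _) (by rw [e, b2]; exact toIocMod_mem_Ioc _ _ _)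
  have e2 : γ = (P ^ m)⁻¹ * P ^ k := by
    rw [mul_inv_eq_one] at this
    rw [← this]; group
  rw [e2]
  exact mul_mem (inv_mem (Subgroup.zpow_mem_zpowers _ _)) (Subgroup.zpow_mem_zpowers _ _)

end Abstract

/-- plane vectors -/
abbrev V := Fin 2 → ℝ

lemma smul0 (g : SL(2, ℝ)) (v : V) : (g • v) 0 = g 0 0 * v 0 + g 0 1 * v 1 := by
  simp [Matrix.SpecialLinearGroup.smul_def, Matrix.mulVec, dotProduct]

lemma smul1 (g : SL(2, ℝ)) (v : V) : (g • v) 1 = g 1 0 * v 0 + g 1 1 * v 1 := by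
  simp [Matrix.SpecialLinearGroup.smul_def, Matrix.mulVec, dotProduct]

lemma slide0 (s : ℝ) (v : V) : (slide s • v) 0 = Real.exp (s / 2) * v 0 := by
  rw [smul0]; simp [slide]

lemma slide1 (s : ℝ) (v : V) : (slide s • v) 1 = (Real.exp (s / 2))⁻¹ * v 1 := by
  rw [smul1]; simp [slide, Real.exp_neg]

lemma slide_mul (s t : ℝ) : slide s * slide t = slide (s + t) := by
  ext i j
  fin_cases i <;> fin_cases j <;> simp [slide, ← Real.exp_add, add_div, add_comm]

lemma slide_zero : slide 0 = 1 := by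
  ext i j
  fin_cases i <;> fin_cases j <;> simp [slide]

lemma slide_inv (s : ℝ) : (slide s)⁻¹ = slide (-s) := by
  rw [inv_eq_iff_mul_eq_one, slide_mul, add_neg_cancel, slide_zero]

lemma slide_comm (s t : ℝ) : slide s * slide t = slide t * slide s := by
  rw [slide_mul, slide_mul, add_comm]

lemma slide_inv0 (s : ℝ) (v : V) : ((slide s)⁻¹ • v) 0 = (Real.exp (s / 2))⁻¹ * v 0 := by
  rw [slide_inv, slide0, neg_div, Real.exp_neg]

lemma slide_inv1 (s : ℝ) (v : V) : ((slide s)⁻¹ • v) 1 = Real.exp (s / 2) * v 1 := by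
  rw [slide_inv, slide1, neg_div, Real.exp_neg, inv_inv]

lemma hop0 (d : ℝ) (v : V) :
    (hop d • v) 0 = Real.cosh (d / 2) * v 0 + Real.sinh (d / 2) * v 1 := by
  rw [smul0]; simp [hop]

lemma hop1 (d : ℝ) (v : V) :
    (hop d • v) 1 = Real.sinh (d / 2) * v 0 + Real.cosh (d / 2) * v 1 := by
  rw [smul1]; simp [hop]

lemma hop_inv0 (d : ℝ) (v : V) :
    ((hop d)⁻¹ • v) 0 = Real.cosh (d / 2) * v 0 - Real.sinh (d / 2) * v 1 := by
  rw [smul0, Matrix.SpecialLinearGroup.SL2_inv_expl]; simp [hop]; ring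

lemma hop_inv1 (d : ℝ) (v : V) :
    ((hop d)⁻¹ • v) 1 = Real.cosh (d / 2) * v 1 - Real.sinh (d / 2) * v 0 := by
  rw [smul1, Matrix.SpecialLinearGroup.SL2_inv_expl]; simp [hop]; ring

lemma para0 (τ : ℝ) (v : V) : (para τ • v) 0 = (1 + τ) * v 0 + τ * v 1 := by
  rw [smul0]; simp [para]

lemma para1 (τ : ℝ) (v : V) : (para τ • v) 1 = -τ * v 0 + (1 - τ) * v 1 := by
  rw [smul1]; simp [para]

/-- the cone over the positive real axis -/
def Dp : Set V := {v | 0 < v 0 * v 1}

/-- logarithmic coordinate -/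
noncomputable def lg (v : V) : ℝ := Real.log (v 0 / v 1)

lemma lg_slide (s : ℝ) {v : V} (hv : v 0 * v 1 ≠ 0) : lg (slide s • v) = lg v + s := by
  obtain ⟨h0, h1⟩ := mul_ne_zero_iff.1 hv
  have he := Real.exp_pos (s / 2)
  have e : (slide s • v) 0 / (slide s • v) 1 = v 0 / v 1 * Real.exp s := by
    rw [slide0, slide1, show Real.exp s = Real.exp (s / 2) * Real.exp (s / 2) by
      rw [← Real.exp_add]; congr 1; ring]
    field_simp
  rw [lg, e, Real.log_mul (div_ne_zero h0 h1) (Real.exp_pos s).ne', Real.log_exp, lg]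

lemma slide_prod (s : ℝ) (v : V) : (slide s • v) 0 * (slide s • v) 1 = v 0 * v 1 := by
  have he := Real.exp_pos (s / 2)
  rw [slide0, slide1]; field_simp

lemma transl_slide (s : ℝ) : Transl (slide s) Dp lg s := by
  intro v
  refine ⟨?_, fun hv => lg_slide s (ne_of_gt hv)⟩
  simp only [Dp, mem_ofPred_eq, slide_prod]

lemma transl_slide' (s : ℝ) : Transl (slide s) {v : V | v 0 * v 1 ≠ 0} lg s := by
  intro v
  refine ⟨?_, fun hv => lg_slide s hv⟩
  simp only [mem_ofPred_eq, slide_prod]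

lemma Dp.ne1 {v : V} (hv : v ∈ Dp) : v 1 ≠ 0 := (mul_ne_zero_iff.1 (ne_of_gt hv)).2

lemma Dp.div_pos {v : V} (hv : v ∈ Dp) : 0 < v 0 / v 1 := by
  have h1 := Dp.ne1 hv
  have : v 0 / v 1 = v 0 * v 1 / (v 1) ^ 2 := by field_simp
  rw [this]
  exact _root_.div_pos hv (by positivity)

lemma Dp.exp_lg {v : V} (hv : v ∈ Dp) : v 0 = Real.exp (lg v) * v 1 := by
  rw [lg, Real.exp_log (Dp.div_pos hv), div_mul_cancel₀ _ (Dp.ne1 hv)]

lemma mem_Dp_of {v : V} {z : ℝ} (hz : 0 < z) (h1 : v 1 ≠ 0) (h : v 0 = z * v 1) :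
    v ∈ Dp ∧ lg v = Real.log z := by
  refine ⟨?_, ?_⟩
  · show 0 < v 0 * v 1
    rw [h, mul_assoc]
    exact mul_pos hz (mul_self_pos.2 h1)
  · rw [lg, h, mul_div_assoc, div_self h1, mul_one]

lemma smul_ne_zero_vec (g : SL(2, ℝ)) {v : V} (hv : v ∈ Dp) : (g • v) 0 ≠ 0 ∨ (g • v) 1 ≠ 0 := by
  by_contra h
  rw [not_or, not_not, not_not] at h
  have h1 : g • v = 0 := by
    ext i; fin_cases i
    · exact h.1
    · exact h.2
  have h2 : v = 0 := by rw [← inv_smul_smul g v, h1, smul_zero]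
  exact Dp.ne1 hv (by rw [h2]; rfl)

/-- the positive half plane is precisely invariant under the cyclic group of the axis -/
def HH (G : Subgroup SL(2, ℝ)) (a : ℝ) : Prop :=
  slide a ∈ G ∧ ∀ γ ∈ G, ∀ v ∈ Dp, γ • v ∈ Dp → γ ∈ Subgroup.zpowers (slide a)

/-- conjugated subgroup: `γ` belongs to it iff `N γ N⁻¹ ∈ G` -/
def cj (N : SL(2, ℝ)) (G : Subgroup SL(2, ℝ)) : Subgroup SL(2, ℝ) :=
  G.comap (MulAut.conj N).toMonoidHom

lemma mem_cj {N γ : SL(2, ℝ)} {G : Subgroup SL(2, ℝ)} : γ ∈ cj N G ↔ N * γ * N⁻¹ ∈ G := Iff.rfl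

lemma HH.conj {G : Subgroup SL(2, ℝ)} {a : ℝ} (h : HH G a) (s : ℝ) : HH (cj (slide s) G) a := by
  refine ⟨?_, ?_⟩
  · rw [mem_cj, slide_comm, mul_inv_cancel_right]; exact h.1
  · intro γ hγ v hv hγv
    have h1 := h.2 _ (mem_cj.1 hγ) (slide s • v) ((transl_slide s v).1.2 hv) (by
      rw [mul_smul, inv_smul_smul, mul_smul]
      exact (transl_slide s _).1.2 hγv)
    obtain ⟨k, hk⟩ := h1
    refine ⟨k, ?_⟩
    simp only at hk ⊢
    have hc : Commute (slide s) (slide a ^ k) := Commute.zpow_right (slide_comm s a) k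
    have : γ = (slide s)⁻¹ * (slide a ^ k) * slide s := by rw [hk]; group
    rw [this, mul_assoc, ← hc.eq, inv_mul_cancel_left]

lemma coth_quarter {a : ℝ} (ha : 0 < a) : Real.cosh (a / 4) / Real.sinh (a / 4) =
    (Real.exp (a / 2) + 1) / (Real.exp (a / 2) - 1) := by
  have h1 : Real.exp (a / 2) = Real.exp (a / 4) * Real.exp (a / 4) := by
    rw [← Real.exp_add]; congr 1; ring
  have h2 : 1 < Real.exp (a / 4) := Real.one_lt_exp_iff.2 (by linarith)
  rw [Real.cosh_eq, Real.sinh_eq, h1, Real.exp_neg]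
  have h3 : Real.exp (a / 4) * Real.exp (a / 4) - 1 ≠ 0 := by nlinarith
  have h4 : Real.exp (a / 4) - (Real.exp (a / 4))⁻¹ ≠ 0 := by
    have : (Real.exp (a / 4))⁻¹ < 1 := inv_lt_one_of_one_lt₀ h2
    linarith
  field_simp

/-- the first pair of pants -/
theorem HH_base {a : ℝ} (ha : 0 < a) : HH (Subgroup.zpowers (slide a) ⊔
    Subgroup.zpowers (para (-(Real.cosh (a / 4) / Real.sinh (a / 4))))) a := by
  have hmem : slide a ∈ Subgroup.zpowers (slide a) ⊔
      Subgroup.zpowers (para (-(Real.cosh (a / 4) / Real.sinh (a / 4)))) :=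
    Subgroup.mem_sup_left (Subgroup.mem_zpowers _)
  refine ⟨hmem, (transl_slide a).mem_zpowers ha (-(a / 2)) hmem ?_⟩
  intro γ hγ v hv hγv h1 h2
  rw [coth_quarter ha] at hγ
  set α := Real.exp (a / 2) with hα
  have hα1 : 1 < α := Real.one_lt_exp_iff.2 (by linarith)
  have hτ : Transl (para (-((α + 1) / (α - 1)))) {v : V | v 0 + v 1 ≠ 0}
      (fun v => v 1 / (v 0 + v 1)) ((α + 1) / (α - 1)) := by
    intro v
    have e : (para (-((α + 1) / (α - 1))) • v) 0 + (para (-((α + 1) / (α - 1))) • v) 1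
        = v 0 + v 1 := by rw [para0, para1]; ring
    refine ⟨by simp only [mem_ofPred_eq, e], fun hv => ?_⟩
    simp only [mem_ofPred_eq] at hv
    simp only [e]
    rw [para1]
    field_simp
    ring
  have hpos : ∀ w ∈ Dp, w 0 + w 1 ≠ 0 ∧
      w 1 / (w 0 + w 1) ∈ Ioc (1 / (1 - α)) (1 / (1 - α) + (α + 1) / (α - 1)) := by
    intro w hw
    have e1 := Dp.exp_lg hw
    have e2 := Dp.ne1 hw
    have e3 := Real.exp_pos (lg w)
    have e4 : w 0 + w 1 = (Real.exp (lg w) + 1) * w 1 := by rw [e1]; ring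
    have e5 : w 1 / (w 0 + w 1) = 1 / (Real.exp (lg w) + 1) := by rw [e4]; field_simp
    refine ⟨by rw [e4]; positivity, ?_⟩
    rw [e5]
    have e6 : 1 / (1 - α) + (α + 1) / (α - 1) = 1 + 1 / (α - 1) := by
      have : α - 1 ≠ 0 := by linarith
      have : 1 - α ≠ 0 := by linarith
      field_simp; ring
    have e7 : 1 / (1 - α) < 0 := div_neg_of_pos_of_neg one_pos (by linarith)
    have e8 : 0 < 1 / (α - 1) := div_pos one_pos (by linarith)
    have e9 : 1 / (Real.exp (lg w) + 1) ≤ 1 := by rw [div_le_one (by positivity)]; linarith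
    have e10 : 0 < 1 / (Real.exp (lg w) + 1) := by positivity
    rw [e6]
    exact ⟨by linarith, by linarith⟩
  refine klein _ _ {w : V | w 0 * w 1 ≠ 0 ∧ lg w ∈ Ioc (-(a / 2)) (-(a / 2) + a)}
    {w : V | w 0 + w 1 ≠ 0 ∧
      w 1 / (w 0 + w 1) ∈ Ioc (1 / (1 - α)) (1 / (1 - α) + (α + 1) / (α - 1))}
    ?_ ?_ ⟨ne_of_gt hv, h1⟩ (hpos v hv) ?_ hγ ⟨ne_of_gt hγv, h2⟩ (hpos _ hγv)
  · intro g hg y hy hgy
    exact (transl_slide' a).eq_one _ hg hy.1 hy.2 hgy.2
  · intro g hg y hy hgy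
    exact hτ.eq_one _ hg hy.1 hy.2 hgy.2
  · intro g hg
    have hne := smul_ne_zero_vec g hv
    generalize g • v = w at hg hne ⊢
    simp only [mem_ofPred_eq, not_and] at hg ⊢
    have e6 : 1 / (1 - α) + (α + 1) / (α - 1) = α / (α - 1) := by
      have : α - 1 ≠ 0 := by linarith
      have : 1 - α ≠ 0 := by linarith
      field_simp; ring
    rw [e6] at hg
    have hw1 : w 1 ≠ 0 := by
      intro h
      have h0 : w 0 ≠ 0 := hne.resolve_right (not_not.2 h)
      refine hg (by rw [h, add_zero]; exact h0) ?_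
      rw [h, zero_div]
      exact ⟨div_neg_of_pos_of_neg one_pos (by linarith), div_nonneg (by linarith) (by linarith)⟩
    obtain ⟨z, hz⟩ : ∃ z, w 0 = z * w 1 := ⟨w 0 / w 1, by field_simp⟩
    have hz2 : -α ≤ z ∧ z < -α⁻¹ := by
      have hαi : α⁻¹ < 1 := inv_lt_one_of_one_lt₀ hα1
      have hαα : α * α⁻¹ = 1 := mul_inv_cancel₀ (by linarith)
      by_cases h : z + 1 = 0
      · constructor <;> linarith
      · have e4 : w 0 + w 1 = (z + 1) * w 1 := by rw [hz]; ring
        have e5 : w 1 / (w 0 + w 1) = 1 / (z + 1) := by rw [e4]; field_simp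
        have h3 := hg (by rw [e4]; exact mul_ne_zero h hw1)
        rw [e5, mem_Ioc, not_and_or, not_lt, not_le] at h3
        rcases h3 with h3 | h3
        · have h4 : z + 1 < 0 := by
            by_contra h5
            have : 0 ≤ 1 / (z + 1) := div_nonneg zero_le_one (not_lt.1 h5)
            have : 1 / (1 - α) < 0 := div_neg_of_pos_of_neg one_pos (by linarith)
            linarith
          rw [one_div_le_one_div_of_neg h4 (by linarith)] at h3
          constructor <;> linarith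
        · have h5 : 0 < α / (α - 1) := div_pos (by linarith) (by linarith)
          have h4 : 0 < z + 1 := by
            by_contra h6
            have : 1 / (z + 1) ≤ 0 := div_nonpos_of_nonneg_of_nonpos zero_le_one (not_lt.1 h6)
            linarith
          rw [div_lt_div_iff₀ (by linarith) h4] at h3
          constructor
          · linarith
          · by_contra h7
            have : α * -α⁻¹ ≤ α * z := mul_le_mul_of_nonneg_left (not_lt.1 h7) (by linarith)
            nlinarith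
    have hαi0 : 0 < α⁻¹ := inv_pos.2 (by linarith)
    have hz0 : 0 < -z := by linarith [hz2.2]
    refine ⟨?_, ?_⟩
    · rw [hz, mul_assoc]
      exact mul_ne_zero (by linarith) (mul_ne_zero hw1 hw1)
    · have : lg w = Real.log (-z) := by
        rw [lg, hz, mul_div_assoc, div_self hw1, mul_one, Real.log_neg_eq_log]
      rw [this]
      constructor
      · rw [Real.lt_log_iff_exp_lt hz0, Real.exp_neg]; linarith [hz2.2]
      · rw [Real.log_le_iff_le_exp hz0, show -(a / 2) + a = a / 2 by ring]; linarith [hz2.1]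

end Pool.Agent.H607Z.Flute
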