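import Mathlib
import Pool.Agent.H607Z.Flute.Klein

/-! The geometry of one pair of pants with a cusp. -/

namespace Pool.Agent.H607Z.Flute

open Set MatrixGroups

/-- logarithmic coordinate after the hop -/
noncomputable def kk (d r : ℝ) : ℝ :=
  Real.log ((Real.cosh (d / 2) * Real.exp r - Real.sinh (d / 2)) /
    (Real.cosh (d / 2) - Real.sinh (d / 2) * Real.exp r))

/-- the interval behind the next axis, in logarithmic coordinate -/
def OO (d : ℝ) : Set ℝ :=
  {r | 0 < Real.cosh (d / 2) * Real.exp r - Real.sinh (d / 2) ∧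
    0 < Real.cosh (d / 2) - Real.sinh (d / 2) * Real.exp r}

lemma measurable_kk (d : ℝ) : Measurable (kk d) := by
  unfold kk
  fun_prop

lemma kk_expand {d : ℝ} (hd : 0 ≤ d) {r r' : ℝ} (hr : r ∈ OO d) (hr' : r' ∈ OO d) (h : r ≤ r') :
    r' - r ≤ kk d r' - kk d r := by
  obtain ⟨a1, a2⟩ := hr
  obtain ⟨b1, b2⟩ := hr'
  have hs : 0 ≤ Real.sinh (d / 2) := Real.sinh_nonneg_iff.2 (by linarith)
  have hc := Real.cosh_pos (d / 2)
  have h1 := Real.cosh_sq_sub_sinh_sq (d / 2)
  have hz : Real.exp r ≤ Real.exp r' := Real.exp_le_exp.2 h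
  have z1 := Real.exp_pos r
  have z2 := Real.exp_pos r'
  unfold kk
  set ch := Real.cosh (d / 2)
  set sh := Real.sinh (d / 2)
  have e : r' - r = Real.log (Real.exp r' / Real.exp r) := by
    rw [Real.log_div z2.ne' z1.ne', Real.log_exp, Real.log_exp]
  rw [e, ← Real.log_div (div_pos b1 b2).ne' (div_pos a1 a2).ne']
  set z := Real.exp r
  set z' := Real.exp r'
  apply Real.log_le_log (div_pos z2 z1)
  rw [div_div_div_eq, div_le_div_iff₀ z1 (mul_pos b2 a1)]
  have q1 : ch * (ch * (1 + z * z') - sh * (z + z')) = (ch * z - sh) * (ch * z' - sh) + 1 := by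
    linear_combination h1
  have q2 : 0 < ch * (1 + z * z') - sh * (z + z') := by
    have : 0 < ch * (ch * (1 + z * z') - sh * (z + z')) := by rw [q1]; positivity
    exact pos_of_mul_pos_left' hc this
  have q3 : (ch * z' - sh) * (ch - sh * z) * z - z' * ((ch - sh * z') * (ch * z - sh))
      = sh * (z' - z) * (ch * (1 + z * z') - sh * (z + z')) := by ring
  have q4 : 0 ≤ sh * (z' - z) * (ch * (1 + z * z') - sh * (z + z')) :=
    mul_nonneg (mul_nonneg hs (sub_nonneg.2 hz)) q2.le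
  linarith
where pos_of_mul_pos_left' {a b : ℝ} (ha : 0 < a) (h : 0 < a * b) : 0 < b :=
  (mul_pos_iff_of_pos_left ha).1 h

lemma kk_strictMonoOn {d : ℝ} (hd : 0 ≤ d) : StrictMonoOn (kk d) (OO d) := by
  intro r hr r' hr' h
  linarith [kk_expand hd hr hr' h.le]

lemma OO_convex {d : ℝ} (hd : 0 ≤ d) {r1 r2 r : ℝ} (h1 : r1 ∈ OO d) (h2 : r2 ∈ OO d)
    (a1 : r1 ≤ r) (a2 : r ≤ r2) : r ∈ OO d := by
  have hs : 0 ≤ Real.sinh (d / 2) := Real.sinh_nonneg_iff.2 (by linarith)
  have hc := Real.cosh_pos (d / 2)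
  have b1 := mul_le_mul_of_nonneg_left (Real.exp_le_exp.2 a1) hc.le
  have b2 := mul_le_mul_of_nonneg_left (Real.exp_le_exp.2 a2) hs
  exact ⟨by linarith [h1.1], by linarith [h2.2]⟩

lemma hop_inv_Dp {d : ℝ} {v : V} (hv : v ∈ Dp) (h : lg v ∈ OO d) :
    (hop d)⁻¹ • v ∈ Dp ∧ lg ((hop d)⁻¹ • v) = kk d (lg v) := by
  have e1 := Dp.exp_lg hv
  have e2 := Dp.ne1 hv
  have e3 : ((hop d)⁻¹ • v) 1 = (Real.cosh (d / 2) - Real.sinh (d / 2) * Real.exp (lg v)) * v 1 := by
    rw [hop_inv1]; linear_combination (-Real.sinh (d / 2)) * e1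
  refine mem_Dp_of (div_pos h.1 h.2) (by rw [e3]; exact mul_ne_zero h.2.ne' e2) ?_
  rw [e3, hop_inv0, ← mul_assoc, div_mul_cancel₀ _ h.2.ne']
  linear_combination (Real.cosh (d / 2)) * e1

lemma hop_Dp {d : ℝ} (hd : 0 ≤ d) {v : V} (hv : v ∈ Dp) :
    hop d • v ∈ Dp ∧ lg (hop d • v) ∈ OO d ∧ kk d (lg (hop d • v)) = lg v := by
  have hs : 0 ≤ Real.sinh (d / 2) := Real.sinh_nonneg_iff.2 (by linarith)
  have hc := Real.cosh_pos (d / 2)
  have h1 := Real.cosh_sq_sub_sinh_sq (d / 2)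
  have e1 := Dp.exp_lg hv
  have e2 := Dp.ne1 hv
  have z1 := Real.exp_pos (lg v)
  have p1 : 0 < Real.cosh (d / 2) * Real.exp (lg v) + Real.sinh (d / 2) := by positivity
  have p2 : 0 < Real.sinh (d / 2) * Real.exp (lg v) + Real.cosh (d / 2) := by positivity
  have e3 : (hop d • v) 1 = (Real.sinh (d / 2) * Real.exp (lg v) + Real.cosh (d / 2)) * v 1 := by
    rw [hop1]; linear_combination (Real.sinh (d / 2)) * e1
  obtain ⟨k1, k2⟩ := mem_Dp_of (v := hop d • v) (div_pos p1 p2)
    (by rw [e3]; exact mul_ne_zero p2.ne' e2) (by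
      rw [e3, hop0, ← mul_assoc, div_mul_cancel₀ _ p2.ne']
      linear_combination (Real.cosh (d / 2)) * e1)
  have k3 : lg (hop d • v) ∈ OO d := by
    rw [OO, mem_ofPred_eq, k2, Real.exp_log (div_pos p1 p2)]
    constructor
    · rw [sub_pos, ← mul_div_assoc, lt_div_iff₀ p2]
      nlinarith
    · rw [sub_pos, ← mul_div_assoc, div_lt_iff₀ p2]
      nlinarith
  refine ⟨k1, k3, ?_⟩
  rw [← (hop_inv_Dp k1 k3).2, inv_smul_smul]

lemma pants_data {a b : ℝ} (ha : 0 < a) (hab : a < b) : ∃ T : ℝ, 0 < ortho a b ∧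
    T = (Real.cosh (a / 2) + Real.cosh (b / 2)) / Real.sinh (a / 2) ∧
    ∀ v : V, (((slide a)⁻¹ * (hop (ortho a b) * slide b * (hop (ortho a b))⁻¹)) • v) 0 =
        (T - 1) * v 0 - (Real.exp (a / 2))⁻¹ * T * v 1 ∧
      (((slide a)⁻¹ * (hop (ortho a b) * slide b * (hop (ortho a b))⁻¹)) • v) 1 =
        Real.exp (a / 2) * T * v 0 - (T + 1) * v 1 := by
  have sa : 0 < Real.sinh (a / 2) := Real.sinh_pos_iff.2 (by linarith)
  have sb : 0 < Real.sinh (b / 2) := Real.sinh_pos_iff.2 (by linarith)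
  have ca := Real.cosh_pos (a / 2)
  have cb := Real.cosh_pos (b / 2)
  have ia := Real.cosh_sq_sub_sinh_sq (a / 2)
  have ib := Real.cosh_sq_sub_sinh_sq (b / 2)
  have la := Real.sinh_lt_cosh (a / 2)
  have lb := Real.sinh_lt_cosh (b / 2)
  have hq : 1 < (1 + Real.cosh (a / 2) * Real.cosh (b / 2)) /
      (Real.sinh (a / 2) * Real.sinh (b / 2)) := by
    rw [one_lt_div (by positivity)]
    nlinarith [mul_lt_mul'' la lb sa.le sb.le]
  have hc : Real.cosh (ortho a b) = (1 + Real.cosh (a / 2) * Real.cosh (b / 2)) /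
      (Real.sinh (a / 2) * Real.sinh (b / 2)) := Real.cosh_arcosh hq.le
  have hs : Real.sinh (ortho a b) = (Real.cosh (a / 2) + Real.cosh (b / 2)) /
      (Real.sinh (a / 2) * Real.sinh (b / 2)) := by
    rw [ortho, Real.sinh_arcosh hq.le, Real.sqrt_eq_iff_mul_self_eq_of_pos (by positivity)]
    field_simp
    linear_combination (-(Real.sinh (b / 2)) ^ 2) * ia +
      (1 - (Real.cosh (a / 2)) ^ 2) * ib
  refine ⟨_, Real.arcosh_pos hq, rfl, fun v => ?_⟩
  have d1 := Real.cosh_two_mul (ortho a b / 2)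
  have d2 := Real.sinh_two_mul (ortho a b / 2)
  rw [show 2 * (ortho a b / 2) = ortho a b by ring] at d1 d2
  have d3 := Real.cosh_sq_sub_sinh_sq (ortho a b / 2)
  rw [hc, div_eq_iff (by positivity)] at d1
  rw [hs, div_eq_iff (by positivity)] at d2
  simp only [mul_smul, slide_inv0, slide_inv1, hop0, hop1, slide0, slide1, hop_inv0, hop_inv1]
  set ch := Real.cosh (ortho a b / 2)
  set sh := Real.sinh (ortho a b / 2)
  have eα : Real.exp (a / 2) = Real.cosh (a / 2) + Real.sinh (a / 2) :=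
    (Real.cosh_add_sinh _).symm
  have eβ : Real.exp (b / 2) = Real.cosh (b / 2) + Real.sinh (b / 2) :=
    (Real.cosh_add_sinh _).symm
  have eα' : (Real.exp (a / 2))⁻¹ = Real.cosh (a / 2) - Real.sinh (a / 2) := by
    rw [← Real.exp_neg, Real.cosh_sub_sinh]
  have eβ' : (Real.exp (b / 2))⁻¹ = Real.cosh (b / 2) - Real.sinh (b / 2) := by
    rw [← Real.exp_neg, Real.cosh_sub_sinh]
  rw [eα', eβ', eα, eβ]
  clear ca cb
  set ca := Real.cosh (a / 2)
  set cb := Real.cosh (b / 2)
  set sa' := Real.sinh (a / 2)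
  set sb' := Real.sinh (b / 2)
  obtain ⟨T, hT⟩ : ∃ T : ℝ, T = (ca + cb) / sa' := ⟨_, rfl⟩
  rw [← hT]
  have hT1 : T * sa' = ca + cb := by rw [hT]; field_simp
  have hT2 : 2 * sh * ch * sb' = T := by
    apply mul_right_cancel₀ sa.ne'
    linear_combination -d2 - hT1
  have hT3 : (ca - sa') * (cb + sb' * (ch ^ 2 + sh ^ 2)) = T - 1 := by
    apply mul_right_cancel₀ sa.ne'
    linear_combination (-(ca - sa')) * d1 - hT1 + cb * ia
  have hT4 : (ca + sa') * (cb - sb' * (ch ^ 2 + sh ^ 2)) = -(T + 1) := by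
    apply mul_right_cancel₀ sa.ne'
    linear_combination (ca + sa') * d1 + hT1 - cb * ia
  constructor
  · linear_combination v 0 * hT3 - (ca - sa') * v 1 * hT2 + (ca - sa') * cb * v 0 * d3
  · linear_combination v 1 * hT4 + (ca + sa') * v 0 * hT2 + (ca + sa') * cb * v 1 * d3

lemma pants_T {a b : ℝ} (ha : 0 < a) (hab : a < b) {T : ℝ}
    (hT : T = (Real.cosh (a / 2) + Real.cosh (b / 2)) / Real.sinh (a / 2)) :
    2 < T ∧ 1 + 2 / T < Real.exp (a / 2) * Real.exp (a / 2) * (1 - 2 / T) ∧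
      2 / T ≤ 2 * Real.exp (-((b - a) / 2)) := by
  have sa : 0 < Real.sinh (a / 2) := Real.sinh_pos_iff.2 (by linarith)
  have la := Real.sinh_lt_cosh (a / 2)
  have hab' : Real.cosh (a / 2) < Real.cosh (b / 2) := by
    rw [Real.cosh_lt_cosh, abs_of_pos (by linarith), abs_of_pos (by linarith)]; linarith
  have hT1 : T * Real.sinh (a / 2) = Real.cosh (a / 2) + Real.cosh (b / 2) := by
    rw [hT]; field_simp
  have h2 : 2 < T := by
    by_contra h
    have := mul_le_mul_of_nonneg_right (not_lt.1 h) sa.le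
    linarith
  have hα := Real.exp_pos (a / 2)
  have hβ := Real.exp_pos (b / 2)
  have hαα : Real.exp (a / 2) * Real.exp (-(a / 2)) = 1 := by rw [← Real.exp_add]; simp
  have hα' := Real.exp_pos (-(a / 2))
  have hβ' := Real.exp_pos (-(b / 2))
  refine ⟨h2, ?_, ?_⟩
  · have e1 : 2 * Real.cosh (a / 2) < T * Real.sinh (a / 2) := by linarith
    rw [Real.cosh_eq, Real.sinh_eq] at e1
    have e2 := mul_lt_mul_of_pos_left e1 hα
    have e3 : T + 2 < Real.exp (a / 2) * Real.exp (a / 2) * (T - 2) := by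
      linear_combination 2 * e2 - (T + 2) * hαα
    have e4 : 1 + 2 / T = (T + 2) / T := by field_simp
    have e5 : Real.exp (a / 2) * Real.exp (a / 2) * (1 - 2 / T) =
        Real.exp (a / 2) * Real.exp (a / 2) * (T - 2) / T := by field_simp
    rw [e4, e5]
    exact div_lt_div_of_pos_right e3 (by linarith)
  · have e1 : Real.exp (-((b - a) / 2)) = Real.exp (a / 2) / Real.exp (b / 2) := by
      rw [← Real.exp_sub]; congr 1; ring
    rw [e1, ← mul_div_assoc, div_le_div_iff₀ (by linarith) hβ]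
    have e2 : Real.cosh (b / 2) ≤ T * Real.sinh (a / 2) := by linarith [Real.cosh_pos (a / 2)]
    rw [Real.cosh_eq, Real.sinh_eq] at e2
    nlinarith [mul_pos hα' (show 0 < T by linarith)]

lemma pants_step {a b : ℝ} (ha : 0 < a) (hab : a < b) : ∃ c r : ℝ, c < r ∧ r < c + a ∧
    r ∈ OO (ortho a b) ∧ c + a ∈ OO (ortho a b) ∧ kk (ortho a b) (c + a) = kk (ortho a b) r + b ∧
    (4 ≤ b - a → r - c ≤ 8 * Real.exp (-((b - a) / 2))) ∧
    ∀ G, HH G a → ∀ γ ∈ G ⊔ Subgroup.zpowers (hop (ortho a b) * slide b * (hop (ortho a b))⁻¹),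
      ∀ v ∈ Dp, γ • v ∈ Dp → lg v ∈ Ioc r (c + a) → lg (γ • v) ∈ Ioc r (c + a) → γ = 1 := by
  obtain ⟨T, hd, hT, hC⟩ := pants_data ha hab
  obtain ⟨t1, t2, t3⟩ := pants_T ha hab hT
  clear hT
  set d := ortho a b
  set B := hop d * slide b * (hop d)⁻¹ with hB
  set C := (slide a)⁻¹ * B with hCdef
  set α := Real.exp (a / 2) with hα
  have hα1 : 1 < α := Real.one_lt_exp_iff.2 (by linarith)
  have hαβ : α < Real.exp (b / 2) := Real.exp_lt_exp.2 (by linarith)
  have hαi : 0 < α⁻¹ := inv_pos.2 (by linarith)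
  have hαα : α * α⁻¹ = 1 := mul_inv_cancel₀ (by linarith)
  obtain ⟨x, hx⟩ : ∃ x : ℝ, x = 2 / T := ⟨_, rfl⟩
  rw [← hx] at t2 t3
  have hT0 : 0 < T := by linarith only [t1]
  have hxT : x * T = 2 := by rw [hx]; field_simp
  have hx0 : 0 < x := by rw [hx]; positivity
  have hx1 : x < 1 := by rw [hx, div_lt_one (by linarith)]; exact t1
  have z0 : 0 < α⁻¹ * (1 - x) := mul_pos hαi (by linarith)
  have z1 : 0 < α⁻¹ * (1 + x) := mul_pos hαi (by linarith)
  have z2 : 0 < α * (1 - x) := mul_pos (by linarith) (by linarith)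
  have z12 : α⁻¹ * (1 + x) < α * (1 - x) := by
    have := mul_lt_mul_of_pos_left t2 hαi
    calc α⁻¹ * (1 + x) < α⁻¹ * (α * α * (1 - x)) := this
      _ = α * (1 - x) := by field_simp
  have z01 : α⁻¹ * (1 - x) < α⁻¹ * (1 + x) := mul_lt_mul_of_pos_left (by linarith) hαi
  have hca : Real.log (α⁻¹ * (1 - x)) + a = Real.log (α * (1 - x)) := by
    rw [Real.log_mul hαi.ne' (by linarith), Real.log_mul (by linarith) (by linarith), Real.log_inv,
      hα, Real.log_exp]; ring
  have hs : 0 < Real.sinh (d / 2) := Real.sinh_pos_iff.2 (by linarith)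
  have hc := Real.cosh_pos (d / 2)
  -- the two end points
  have hv : (hop d)⁻¹ • slide a • C • (![α⁻¹ * (1 + x), 1] : V) =
      slide b • (hop d)⁻¹ • (![α⁻¹ * (1 + x), 1] : V) := by
    rw [← mul_smul, ← mul_smul, ← mul_smul, hCdef, hB]
    congr 1
    group
  have hv0 := congrFun hv 0
  have hv1 := congrFun hv 1
  rw [hop_inv0, slide0, slide1, slide0, hop_inv0, (hC _).1, (hC _).2] at hv0
  rw [hop_inv1, slide0, slide1, slide1, hop_inv1, (hC _).1, (hC _).2] at hv1
  simp only [Matrix.cons_val_zero, Matrix.cons_val_one] at hv0 hv1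
  rw [← hα] at hv0 hv1
  set β := Real.exp (b / 2) with hβ
  have hβ0 : 0 < β := by linarith
  have hββ : β * β⁻¹ = 1 := mul_inv_cancel₀ hβ0.ne'
  have f1 : (T - 1) * (α⁻¹ * (1 + x)) - α⁻¹ * T * 1 = α⁻¹ * (1 - x) := by
    linear_combination α⁻¹ * hxT
  have f2 : α * T * (α⁻¹ * (1 + x)) - (T + 1) * 1 = 1 := by
    linear_combination T * (1 + x) * hαα + hxT
  rw [f1, f2] at hv0 hv1
  set ch := Real.cosh (d / 2) with hch
  set sh := Real.sinh (d / 2) with hsh
  have g0 : ch * (α * (1 - x)) - sh = α * β * (ch * (α⁻¹ * (1 + x)) - sh) := by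
    linear_combination α * hv0 + (sh - ch * α * (1 - x)) * hαα
  have g1 : β * (ch - sh * (α * (1 - x))) = α * (ch - sh * (α⁻¹ * (1 + x))) := by
    linear_combination α * β * hv1 + β * (sh * α * (1 - x) - ch) * hαα +
      α * (ch - sh * (α⁻¹ * (1 + x))) * hββ
  have X1 : 0 < ch * (α⁻¹ * (1 + x)) - sh := by
    have h1 : 0 < (α * β - 1) * (ch * (α⁻¹ * (1 + x)) - sh) := by
      have := mul_lt_mul_of_pos_left z12 hc
      linarith
    exact (mul_pos_iff_of_pos_left
      (sub_pos.2 (one_lt_mul_of_le_of_lt hα1.le (hα1.trans hαβ)))).1 h1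
  have Y2 : 0 < ch - sh * (α * (1 - x)) := by
    have h1 : 0 < (β - α) * (ch - sh * (α * (1 - x))) := by
      have := mul_lt_mul_of_pos_left (mul_lt_mul_of_pos_left z12 hs) (show 0 < α by linarith)
      linarith
    exact (mul_pos_iff_of_pos_left (by linarith)).1 h1
  have X2 : 0 < ch * (α * (1 - x)) - sh := by
    have := mul_lt_mul_of_pos_left z12 hc
    linarith
  have Y1 : 0 < ch - sh * (α⁻¹ * (1 + x)) := by
    have := mul_lt_mul_of_pos_left z12 hs
    linarith
  refine ⟨Real.log (α⁻¹ * (1 - x)), Real.log (α⁻¹ * (1 + x)), Real.log_lt_log z0 z01, ?_, ?_, ?_,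
    ?_, ?_, ?_⟩
  · rw [hca]; exact Real.log_lt_log z1 z12
  · rw [OO, mem_ofPred_eq, Real.exp_log z1]; exact ⟨X1, Y1⟩
  · rw [OO, mem_ofPred_eq, hca, Real.exp_log z2]; exact ⟨X2, Y2⟩
  · rw [hca, kk, kk, Real.exp_log z1, Real.exp_log z2, ← hch, ← hsh]
    have e : (ch * (α * (1 - x)) - sh) / (ch - sh * (α * (1 - x))) =
        (ch * (α⁻¹ * (1 + x)) - sh) / (ch - sh * (α⁻¹ * (1 + x))) * Real.exp b := by
      rw [show Real.exp b = β * β by rw [hβ, ← Real.exp_add]; congr 1; ring,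
        div_mul_eq_mul_div, div_eq_div_iff Y2.ne' Y1.ne', g0]
      linear_combination (-(β * (ch * (α⁻¹ * (1 + x)) - sh))) * g1
    rw [e, Real.log_mul (div_pos X1 Y1).ne' (Real.exp_pos b).ne', Real.log_exp]
  · intro h4
    have k1 : Real.exp (-((b - a) / 2)) ≤ 1 / 4 := by
      have k2 : Real.exp (-((b - a) / 2)) ≤ Real.exp (-2) := Real.exp_le_exp.2 (by linarith)
      have k3 : Real.exp (-2) = (Real.exp 1 * Real.exp 1)⁻¹ := by
        rw [← Real.exp_add, ← Real.exp_neg]; norm_num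
      have k4 : 2 ≤ Real.exp 1 := by linarith [Real.add_one_le_exp 1]
      have k5 : (Real.exp 1 * Real.exp 1)⁻¹ ≤ (4 : ℝ)⁻¹ :=
        inv_anti₀ (by norm_num) (by nlinarith only [k4])
      rw [k3] at k2
      linarith
    rw [← Real.log_div z1.ne' z0.ne', mul_div_mul_left _ _ hαi.ne']
    refine (Real.log_le_sub_one_of_pos (div_pos (by linarith) (by linarith))).trans ?_
    have : (1 + x) / (1 - x) ≤ 1 + 4 * x := by
      have hx2 : x ≤ 1 / 2 := by linarith only [k1, t3]
      rw [div_le_iff₀ (by linarith only [hx1])]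
      nlinarith only [mul_nonneg hx0.le (sub_nonneg.2 hx2)]
    linarith only [this, t3]
  · intro G hG γ hγ v hv hγv h1 h2
    have hγ' : γ ∈ G ⊔ Subgroup.zpowers C := by
      refine (sup_le le_sup_left ?_ : G ⊔ Subgroup.zpowers B ≤ G ⊔ Subgroup.zpowers C) hγ
      rw [Subgroup.zpowers_le]
      have : B = slide a * C := by rw [hCdef, mul_inv_cancel_left]
      rw [this]
      exact mul_mem (Subgroup.mem_sup_left hG.1) (Subgroup.mem_sup_right (Subgroup.mem_zpowers _))
    have hτ : Transl C {w : V | α * w 0 - w 1 ≠ 0} (fun w => -(w 1 / (α * w 0 - w 1))) T := by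
      intro w
      have e : α * (C • w) 0 - (C • w) 1 = -(α * w 0 - w 1) := by
        rw [(hC w).1, (hC w).2]; linear_combination (-T * w 1) * hαα
      refine ⟨by simp only [mem_ofPred_eq, e, neg_ne_zero], fun hw => ?_⟩
      simp only [mem_ofPred_eq] at hw
      simp only [e]
      rw [(hC w).2]
      field_simp
      ring
    have hlt : Real.log (α⁻¹ * (1 - x)) < Real.log (α⁻¹ * (1 + x)) := Real.log_lt_log z0 z01
    have hin : ∀ w ∈ Dp, Real.log (α⁻¹ * (1 + x)) < lg w → α * w 0 - w 1 ≠ 0 ∧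
        -(w 1 / (α * w 0 - w 1)) ∈ Ioc (-(T / 2)) (-(T / 2) + T) := by
      intro w hw hl
      rw [Real.log_lt_iff_lt_exp z1] at hl
      have e1 := Dp.exp_lg hw
      have e2 := Dp.ne1 hw
      have e3 : x < α * Real.exp (lg w) - 1 := by
        have := mul_lt_mul_of_pos_left hl (show 0 < α by linarith)
        rw [← mul_assoc, hαα] at this
        linarith
      have e4 : α * w 0 - w 1 = (α * Real.exp (lg w) - 1) * w 1 := by
        linear_combination α * e1
      have e6 : 0 < α * Real.exp (lg w) - 1 := by linarith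
      have e5 : w 1 / (α * w 0 - w 1) = 1 / (α * Real.exp (lg w) - 1) := by
        rw [e4]; field_simp
      refine ⟨by rw [e4]; exact mul_ne_zero e6.ne' e2, ?_⟩
      rw [e5]
      have e7 : 0 < 1 / (α * Real.exp (lg w) - 1) := by positivity
      have e8 : 1 / (α * Real.exp (lg w) - 1) < T / 2 := by
        rw [div_lt_div_iff₀ e6 two_pos]
        linarith only [mul_lt_mul_of_pos_right e3 hT0, hxT]
      exact ⟨by linarith only [e8], by linarith only [e7, hT0]⟩
    refine klein _ _ {w : V | w ∈ Dp ∧ lg w ∈ Ioc (Real.log (α⁻¹ * (1 - x)))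
        (Real.log (α⁻¹ * (1 - x)) + a)}
      {w : V | α * w 0 - w 1 ≠ 0 ∧ -(w 1 / (α * w 0 - w 1)) ∈ Ioc (-(T / 2)) (-(T / 2) + T)}
      ?_ ?_ ⟨hv, hlt.trans h1.1, h1.2⟩ (hin v hv h1.1) ?_ hγ' ⟨hγv, hlt.trans h2.1, h2.2⟩
      (hin _ hγv h2.1)
    · intro g hg y hy hgy
      exact (transl_slide a).eq_one _ (hG.2 g hg y hy.1 hgy.1) hy.1 hy.2 hgy.2
    · intro g hg y hy hgy
      exact hτ.eq_one _ hg hy.1 hy.2 hgy.2
    · intro g hg
      have hne := smul_ne_zero_vec g hv
      generalize g • v = w at hg hne ⊢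
      simp only [mem_ofPred_eq, not_and] at hg ⊢
      have hw1 : w 1 ≠ 0 := by
        intro h
        have h0 : w 0 ≠ 0 := hne.resolve_right (not_not.2 h)
        refine hg (by rw [h, sub_zero]; exact mul_ne_zero (by linarith) h0) ?_
        rw [h, zero_div, neg_zero]
        exact ⟨by linarith, by linarith⟩
      obtain ⟨z, hz⟩ : ∃ z, w 0 = z * w 1 := ⟨w 0 / w 1, by field_simp⟩
      have hz2 : -x < α * z - 1 ∧ α * z - 1 ≤ x := by
        by_cases h : α * z - 1 = 0
        · constructor <;> linarith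
        · have e4 : α * w 0 - w 1 = (α * z - 1) * w 1 := by rw [hz]; ring
          have e5 : w 1 / (α * w 0 - w 1) = 1 / (α * z - 1) := by rw [e4]; field_simp
          have h3 := hg (by rw [e4]; exact mul_ne_zero h hw1)
          rw [e5, mem_Ioc, not_and_or, not_lt, not_le] at h3
          rcases h3 with h3 | h3
          · have h4 : 0 < α * z - 1 := by
              by_contra h5
              have : 1 / (α * z - 1) ≤ 0 :=
                div_nonpos_of_nonneg_of_nonpos zero_le_one (not_lt.1 h5)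
              linarith
            have h5 : T / 2 ≤ 1 / (α * z - 1) := by linarith
            rw [div_le_div_iff₀ two_pos h4] at h5
            constructor
            · linarith only [h4, hx0]
            · by_contra h6
              linarith only [mul_lt_mul_of_pos_right (not_le.1 h6) hT0, hxT, h5]
          · have h4 : 0 < -(α * z - 1) := by
              by_contra h5
              have : 0 ≤ 1 / (α * z - 1) := div_nonneg zero_le_one (by linarith)
              linarith
            have h5 : T / 2 < 1 / -(α * z - 1) := by rw [div_neg]; linarith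
            rw [div_lt_div_iff₀ two_pos h4] at h5
            constructor
            · by_contra h6
              linarith only [mul_le_mul_of_nonneg_right (not_lt.1 h6) hT0.le, hxT, h5]
            · linarith only [h4, hx0]
      have k1 : α⁻¹ * (1 - x) < z := by
        have := mul_lt_mul_of_pos_left (show 1 - x < α * z by linarith [hz2.1]) hαi
        rwa [← mul_assoc, mul_comm α⁻¹ α, hαα, one_mul] at this
      have k2 : z ≤ α⁻¹ * (1 + x) := by
        have := mul_le_mul_of_nonneg_left (show α * z ≤ 1 + x by linarith [hz2.2]) hαi.le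
        rwa [← mul_assoc, mul_comm α⁻¹ α, hαα, one_mul] at this
      obtain ⟨m1, m2⟩ := mem_Dp_of (z0.trans k1) hw1 hz
      refine ⟨m1, ?_⟩
      rw [m2, hca]
      exact ⟨Real.log_lt_log z0 k1, Real.log_le_log (z0.trans k1) (k2.trans z12.le)⟩

end Pool.Agent.H607Z.Flute
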