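import Mathlib
import Pool.Agent.H607Z.Flute.Step

/-! Wandering sets of uniformly positive measure for the finite stages. -/

namespace Pool.Agent.H607Z.Flute

open Set MatrixGroups MeasureTheory

lemma measurable_red {a : ℝ} (ha : 0 < a) (c : ℝ) : Measurable (toIocMod ha c) := by
  have : toIocMod ha c = fun u => c + a - Int.fract ((c + a - u) / a) * a :=
    funext fun u => toIocMod_eq_sub_fract_mul ha c u
  rw [this]
  exact measurable_const.sub ((Measurable.fract (by fun_prop)).mul measurable_const)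

lemma red_meas {a : ℝ} (ha : 0 < a) (c c0 : ℝ) {B : Set ℝ} (hB : MeasurableSet B) :
    volume (toIocMod ha c0 ⁻¹' B ∩ Ioc c (c + a)) ≤ volume B := by
  rw [(isAddFundamentalDomain_Ioc ha c volume).measure_set_eq
    (isAddFundamentalDomain_Ioc ha c0 volume) (measurable_red ha c0 hB)]
  · apply measure_mono
    rintro u ⟨h1, h2⟩
    rwa [mem_preimage, (toIocMod_eq_self ha).2 h2] at h1
  · rintro ⟨g, k, rfl⟩
    ext u
    show toIocMod ha c0 (k • a + u) ∈ B ↔ toIocMod ha c0 u ∈ B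
    rw [toIocMod_zsmul_add]

lemma red_inj {a : ℝ} (ha : 0 < a) (c c0 : ℝ) : InjOn (toIocMod ha c0) (Ioc c (c + a)) := by
  intro u hu u' hu' h
  obtain ⟨n, hn⟩ := (toIocMod_eq_toIocMod ha).1 h
  have e : u' = u + n • a := by linarith
  rw [← (toIocMod_eq_self ha).2 hu, ← (toIocMod_eq_self ha).2 hu', e, toIocMod_add_zsmul]

lemma expand_meas {f : ℝ → ℝ} {s : Set ℝ} (h : ∀ u ∈ s, ∀ u' ∈ s, u ≤ u' → u' - u ≤ f u' - f u)
    (A : Set ℝ) : volume (s ∩ f ⁻¹' A) ≤ volume A := by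
  have h' : ∀ u ∈ s, ∀ u' ∈ s, dist u u' ≤ dist (f u) (f u') := by
    intro u hu u' hu'
    rw [Real.dist_eq, Real.dist_eq]
    rcases le_total u u' with h1 | h1
    · have := h u hu u' hu' h1
      rw [abs_sub_comm, abs_of_nonneg (by linarith), abs_sub_comm]
      exact this.trans (le_abs_self _)
    · have := h u' hu' u hu h1
      rw [abs_of_nonneg (by linarith)]
      exact this.trans (le_abs_self _)
  have hinj : InjOn f s := by
    intro u hu u' hu' e
    have := h' u hu u' hu'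
    rw [e, dist_self] at this
    exact dist_le_zero.1 this
  have hL : LipschitzOnWith 1 (Function.invFunOn f s) (f '' (s ∩ f ⁻¹' A)) := by
    apply LipschitzOnWith.mk_one
    rintro _ ⟨u, hu, rfl⟩ _ ⟨u', hu', rfl⟩
    rw [hinj.leftInvOn_invFunOn hu.1, hinj.leftInvOn_invFunOn hu'.1]
    exact h' u hu.1 u' hu'.1
  have h1 := hL.hausdorffMeasure_image_le (d := 1) zero_le_one
  rw [hausdorffMeasure_real, hinj.leftInvOn_invFunOn.image_image' inter_subset_left] at h1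
  simp only [ENNReal.coe_one, ENNReal.one_rpow, one_mul] at h1
  refine h1.trans (measure_mono ?_)
  rintro _ ⟨u, hu, rfl⟩
  exact hu.2

/-- the induction invariant -/
def Inv (G : Subgroup SL(2, ℝ)) (a : ℝ) (y : ℝ → V) (m : ℝ) : Prop :=
  HH G a ∧ ∃ (S : Set ℝ) (Φ : ℝ → ℝ) (δ : ℝ → SL(2, ℝ)) (c : ℝ), MeasurableSet S ∧ S ⊆ Ioc 0 5 ∧
    Measurable Φ ∧ InjOn Φ S ∧ (∀ A, MeasurableSet A → volume (S ∩ Φ ⁻¹' A) ≤ volume A) ∧
    ENNReal.ofReal m ≤ volume S ∧
    ∀ s ∈ S, δ s ∈ G ∧ δ s • y s ∈ Dp ∧ lg (δ s • y s) = Φ s ∧ Φ s ∈ Ioc c (c + a)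

lemma Inv.conj {G : Subgroup SL(2, ℝ)} {a m : ℝ} {y : ℝ → V} (h : Inv G a y m) (τ : ℝ) :
    Inv (cj (slide τ) G) a (fun s => (slide τ)⁻¹ • y s) m := by
  obtain ⟨h0, S, Φ, δ, c, h1, h2, h3, h4, h5, h6, h7⟩ := h
  refine ⟨h0.conj τ, S, fun s => Φ s - τ, fun s => (slide τ)⁻¹ * δ s * slide τ, c - τ, h1, h2,
    h3.sub measurable_const, ?_, ?_, h6, ?_⟩
  · intro s hs s' hs' e
    exact h4 hs hs' (sub_left_inj.1 e)
  · intro A hA
    have := h5 ((fun u => u + -τ) ⁻¹' A) (hA.preimage (by fun_prop))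
    rwa [measure_preimage_add_right] at this
  · intro s hs
    obtain ⟨a1, a2, a3, a4⟩ := h7 s hs
    have e : ((slide τ)⁻¹ * δ s * slide τ) • (slide τ)⁻¹ • y s = (slide τ)⁻¹ • δ s • y s := by
      rw [mul_smul, smul_inv_smul, mul_smul]
    have t := (transl_slide τ).inv (δ s • y s)
    refine ⟨?_, ?_, ?_, ?_⟩
    · rw [mem_cj]
      convert a1 using 1
      group
    · simp only [e]; exact t.1.2 a2
    · simp only [e]; rw [t.2 a2, a3]; ring
    · exact ⟨by linarith [a4.1], by linarith [a4.2]⟩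

lemma Inv.step {G : Subgroup SL(2, ℝ)} {a b m ε : ℝ} {y : ℝ → V} (h : Inv G a y m) (ha : 0 < a)
    (hab : 4 ≤ b - a) (hε : 8 * Real.exp (-((b - a) / 2)) ≤ ε) :
    Inv (cj (hop (ortho a b))
      (G ⊔ Subgroup.zpowers (hop (ortho a b) * slide b * (hop (ortho a b))⁻¹))) b
      (fun s => (hop (ortho a b))⁻¹ • y s) (m - ε) := by
  obtain ⟨h0, S, Φ, δ, c, h1, h2, h3, h4, h5, h6, h7⟩ := h
  have hab' : a < b := by linarith
  obtain ⟨c0, r, p1, p2, p3, p4, p5, p6, p7⟩ := pants_step ha hab'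
  obtain ⟨-, hd, -, -⟩ := pants_data ha hab'
  set d := ortho a b
  have hO : Ioc r (c0 + a) ⊆ OO d := fun u hu => OO_convex hd.le p3 p4 hu.1.le hu.2
  have hmem : slide b ∈ cj (hop d) (G ⊔ Subgroup.zpowers (hop d * slide b * (hop d)⁻¹)) :=
    mem_cj.2 (Subgroup.mem_sup_right (Subgroup.mem_zpowers _))
  have hred := measurable_red ha c0
  have hsub : ∀ B : Set ℝ, MeasurableSet B → volume (S ∩ Φ ⁻¹' (toIocMod ha c0 ⁻¹' B)) ≤ volume B := by
    intro B hB
    refine le_trans (measure_mono ?_) ((h5 _ ((hred hB).inter measurableSet_Ioc)).trans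
      (red_meas ha c c0 hB))
    rintro s ⟨hs, hs'⟩
    exact ⟨hs, hs', (h7 s hs).2.2.2⟩
  refine ⟨⟨hmem, (transl_slide b).mem_zpowers (by linarith) (kk d r) hmem ?_⟩,
    S ∩ Φ ⁻¹' (toIocMod ha c0 ⁻¹' Ioc r (c0 + a)), fun s => kk d (toIocMod ha c0 (Φ s)),
    fun s => (hop d)⁻¹ * (slide a ^ (-toIocDiv ha c0 (Φ s)) * δ s) * hop d, kk d r,
    h1.inter (h3 (hred measurableSet_Ioc)), inter_subset_left.trans h2,
    (measurable_kk d).comp (hred.comp h3), ?_, ?_, ?_, ?_⟩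
  · intro γ hγ v hv hγv k1 k2
    have key : ∀ w ∈ Dp, lg w ∈ Ioc (kk d r) (kk d r + b) → lg (hop d • w) ∈ Ioc r (c0 + a) := by
      intro w hw hl
      obtain ⟨-, q2, q3⟩ := hop_Dp hd.le hw
      rw [← q3, ← p5] at hl
      exact ⟨((kk_strictMonoOn hd.le).lt_iff_lt p3 q2).1 hl.1,
        ((kk_strictMonoOn hd.le).le_iff_le q2 p4).1 hl.2⟩
    have e : (hop d * γ * (hop d)⁻¹) • hop d • v = hop d • γ • v := by
      rw [mul_smul, inv_smul_smul, mul_smul]
    have := p7 G h0 _ (mem_cj.1 hγ) (hop d • v) (hop_Dp hd.le hv).1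
      (by rw [e]; exact (hop_Dp hd.le hγv).1) (key v hv k1) (by rw [e]; exact key _ hγv k2)
    rwa [mul_inv_eq_one, mul_eq_left] at this
  · rintro s ⟨hs, hs2⟩ s' ⟨hs', hs2'⟩ e
    have e1 := (kk_strictMonoOn hd.le).injOn (hO hs2) (hO hs2') e
    exact h4 hs hs' (red_inj ha c c0 (h7 s hs).2.2.2 (h7 s' hs').2.2.2 e1)
  · intro A hA
    refine le_trans (measure_mono ?_) ((hsub (Ioc r (c0 + a) ∩ kk d ⁻¹' A)
      (measurableSet_Ioc.inter (measurable_kk d hA))).trans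
      (expand_meas (fun u hu u' hu' => kk_expand hd.le (hO hu) (hO hu')) A))
    rintro s ⟨⟨hs, hs2⟩, hs3⟩
    exact ⟨hs, hs2, hs3⟩
  · have q1 : volume S ≤ volume (S ∩ Φ ⁻¹' (toIocMod ha c0 ⁻¹' Ioc r (c0 + a))) +
        volume (S ∩ Φ ⁻¹' (toIocMod ha c0 ⁻¹' Ioc c0 r)) := by
      refine le_trans (measure_mono ?_) (measure_union_le _ _)
      intro s hs
      have := toIocMod_mem_Ioc ha c0 (Φ s)
      rcases lt_or_ge r (toIocMod ha c0 (Φ s)) with q | q
      · exact Or.inl ⟨hs, q, this.2⟩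
      · exact Or.inr ⟨hs, this.1, q⟩
    have q2 := hsub (Ioc c0 r) measurableSet_Ioc
    rw [Real.volume_Ioc] at q2
    have q3 : ENNReal.ofReal (r - c0) ≤ ENNReal.ofReal ε :=
      ENNReal.ofReal_le_ofReal ((p6 hab).trans hε)
    have hε0 : 0 ≤ ε := le_trans (by positivity) hε
    rw [ENNReal.ofReal_sub _ hε0, tsub_le_iff_right]
    exact h6.trans (q1.trans (add_le_add le_rfl (q2.trans q3)))
  · rintro s ⟨hs, hs2⟩
    obtain ⟨a1, a2, a3, a4⟩ := h7 s hs
    have e : ((hop d)⁻¹ * (slide a ^ (-toIocDiv ha c0 (Φ s)) * δ s) * hop d) • (hop d)⁻¹ • y s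
        = (hop d)⁻¹ • slide a ^ (-toIocDiv ha c0 (Φ s)) • δ s • y s := by
      rw [mul_smul, smul_inv_smul, mul_smul, mul_smul]
    obtain ⟨b1, b2⟩ := (transl_slide a).red ha c0 a2
    rw [a3] at b1 b2
    obtain ⟨b3, b4⟩ := hop_inv_Dp (d := d) b1 (by rw [b2]; exact hO hs2)
    refine ⟨?_, ?_, ?_, ?_⟩
    · rw [mem_cj]
      have : slide a ^ (-toIocDiv ha c0 (Φ s)) * δ s ∈
          G ⊔ Subgroup.zpowers (hop d * slide b * (hop d)⁻¹) :=
        Subgroup.mem_sup_left (mul_mem (zpow_mem h0.1 _) a1)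
      convert this using 1
      group
    · simp only [e]; exact b3
    · simp only [e]; rw [b4, b2]
    · rw [← p5]
      exact ⟨kk_strictMonoOn hd.le p3 (hO hs2) hs2.1,
        (kk_strictMonoOn hd.le).monotoneOn (hO hs2) p4 hs2.2⟩

lemma Inv.wander {G : Subgroup SL(2, ℝ)} {a m : ℝ} {y : ℝ → V} (h : Inv G a y m) :
    ∃ S : Set ℝ, MeasurableSet S ∧ S ⊆ Ioc 0 5 ∧ ENNReal.ofReal m ≤ volume S ∧
      ∀ γ ∈ G, ∀ s ∈ S, ∀ s' ∈ S, ∀ μ : ℝ, μ ≠ 0 → γ • y s = μ • y s' → γ = 1 := by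
  obtain ⟨h0, S, Φ, δ, c, h1, h2, h3, h4, h5, h6, h7⟩ := h
  refine ⟨S, h1, h2, h6, fun γ hγ s hs s' hs' μ hμ e => ?_⟩
  obtain ⟨a1, a2, a3, a4⟩ := h7 s hs
  obtain ⟨b1, b2, b3, b4⟩ := h7 s' hs'
  have e1 : (δ s' * γ * (δ s)⁻¹) • δ s • y s = μ • δ s' • y s' := by
    rw [mul_smul, inv_smul_smul, mul_smul, e, smul_comm]
  have e2 : μ • δ s' • y s' ∈ Dp ∧ lg (μ • δ s' • y s') = Φ s' := by
    obtain ⟨q1, q2⟩ := mem_Dp_of (v := μ • δ s' • y s') (Real.exp_pos (lg (δ s' • y s')))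
      (mul_ne_zero hμ (Dp.ne1 b2)) (by
        simp only [Pi.smul_apply, smul_eq_mul]
        rw [Dp.exp_lg b2]
        simp only [lg]
        ring)
    exact ⟨q1, by rw [q2, Real.log_exp, b3]⟩
  have e3 := h0.2 _ (mul_mem (mul_mem b1 hγ) (inv_mem a1)) _ a2 (by rw [e1]; exact e2.1)
  have e4 := (transl_slide a).eq_one c e3 a2 (by rw [a3]; exact a4) (by rw [e1, e2.2]; exact b4)
  have e5 : Φ s = Φ s' := by rw [← e2.2, ← e1, e4, one_smul, a3]
  have e6 : s = s' := h4 hs hs' e5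
  subst e6
  rwa [mul_inv_eq_one, mul_eq_left] at e4

/-- the lengths -/
def len (n : ℕ) : ℝ := (n : ℝ) ^ 2 + 3 * n + 5

/-- the group of the stage `n` in the frame `n` -/
noncomputable def Gl (t : ℕ → ℝ) : ℕ → Subgroup SL(2, ℝ)
  | 0 => cj (slide (t 0 * len 0 + len 0 / 4)) (Subgroup.zpowers (slide (len 0)) ⊔
      Subgroup.zpowers (para (-(Real.cosh (len 0 / 4) / Real.sinh (len 0 / 4)))))
  | n + 1 => cj (slide (t (n + 1) * len (n + 1))) (cj (hop (ortho (len n) (len (n + 1))))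
      (Gl t n ⊔ Subgroup.zpowers (hop (ortho (len n) (len (n + 1))) * slide (len (n + 1)) *
        (hop (ortho (len n) (len (n + 1))))⁻¹)))

lemma len_pos (n : ℕ) : 0 < len n := by unfold len; positivity

lemma len_succ (n : ℕ) : len (n + 1) - len n = 2 * (n + 2) := by unfold len; push_cast; ring

lemma inv_all (t : ℕ → ℝ) (n : ℕ) :
    Inv (Gl t n) (len n) (fun s => (frame len t n)⁻¹ • (![Real.exp s, 1] : V))
      (1 + 4 * (1 / 2) ^ n) := by
  induction n with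
  | zero =>
    have h5 : len 0 = 5 := by simp [len]
    refine ⟨(HH_base (len_pos 0)).conj _, Ioc 0 5, id, fun _ => 1, 0, measurableSet_Ioc, Subset.rfl,
      measurable_id, injOn_id _, fun A _ => measure_mono inter_subset_right, ?_, ?_⟩
    · rw [Real.volume_Ioc]; norm_num
    · intro s hs
      obtain ⟨q1, q2⟩ := mem_Dp_of (v := ![Real.exp s, 1]) (Real.exp_pos s) (by simp) (by simp)
      simp only [frame, inv_one, one_smul]
      exact ⟨one_mem _, q1, by rw [q2, Real.log_exp]; rfl, by rw [h5, zero_add]; exact hs⟩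
  | succ n ih =>
    have hn : (0 : ℝ) ≤ n := Nat.cast_nonneg n
    have h1 := (ih.step (b := len (n + 1)) (ε := 2 * (1 / 2) ^ n) (len_pos n)
      (by rw [len_succ]; linarith) (by
        rw [len_succ, show -(2 * ((n : ℝ) + 2) / 2) = ((n + 2 : ℕ) : ℝ) * (-1) by push_cast; ring,
          Real.exp_nat_mul]
        have k4 : 2 ≤ Real.exp 1 := by linarith [Real.add_one_le_exp 1]
        have k5 : Real.exp (-1) ≤ 1 / 2 := by
          rw [Real.exp_neg, one_div]; exact inv_anti₀ two_pos k4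
        have k6 := pow_le_pow_left₀ (Real.exp_pos _).le k5 (n + 2)
        rw [pow_add (1 / 2 : ℝ)] at k6
        linarith)).conj (t (n + 1) * len (n + 1))
    convert h1 using 1
    · rfl
    · funext s
      simp only [frame, mul_inv_rev, mul_smul]
    · ring

lemma eventually_mem_Gl (t : ℕ → ℝ) {γ : SL(2, ℝ)} (hγ : γ ∈ fluteGroup len t) :
    ∀ᶠ n in Filter.atTop, (frame len t n)⁻¹ * γ * frame len t n ∈ Gl t n := by
  have mono : ∀ g : SL(2, ℝ), ∀ k, (frame len t k)⁻¹ * g * frame len t k ∈ Gl t k →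
      ∀ᶠ n in Filter.atTop, (frame len t n)⁻¹ * g * frame len t n ∈ Gl t n := by
    intro g k hk
    refine Filter.eventually_atTop.2 ⟨k, fun n hn => ?_⟩
    induction n, hn using Nat.le_induction with
    | base => exact hk
    | succ n _ ih =>
      rw [Gl, mem_cj, mem_cj]
      convert Subgroup.mem_sup_left ih using 1
      simp only [frame]
      group
  induction hγ using Subgroup.closure_induction with
  | mem g hg =>
    rcases hg with rfl | ⟨k, rfl⟩
    · refine mono _ 0 ?_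
      rw [Gl, mem_cj]
      convert Subgroup.mem_sup_right (Subgroup.mem_zpowers _) using 1
      have : slide (t 0 * len 0 + len 0 / 4) = (slide (-(t 0 * len 0) - len 0 / 4))⁻¹ := by
        rw [slide_inv]; congr 1; ring
      rw [this]
      simp only [frame, cusp0]
      group
    · refine mono _ k ?_
      convert (inv_all t k).1.1 using 1
      simp only [cuff]
      group
  | one => exact Filter.Eventually.of_forall fun n => by simp
  | mul g g' _ _ h1 h2 =>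
    filter_upwards [h1, h2] with n a1 a2
    convert mul_mem a1 a2 using 1
    group
  | inv g _ h1 =>
    filter_upwards [h1] with n a1
    convert inv_mem a1 using 1
    group

/-- every finite part of the flute group has a wandering set of measure at least one -/
theorem wander (t : ℕ → ℝ) (F : Finset SL(2, ℝ)) (hF : ∀ γ ∈ F, γ ∈ fluteGroup len t) :
    ∃ S : Set ℝ, MeasurableSet S ∧ S ⊆ Ioc 0 5 ∧ 1 ≤ volume S ∧
      ∀ γ ∈ F, ∀ γ' ∈ F, ∀ s ∈ S, ∀ s' ∈ S, ∀ μ : ℝ, μ ≠ 0 →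
        γ • (![Real.exp s, 1] : V) = μ • γ' • (![Real.exp s', 1] : V) → γ = γ' := by
  obtain ⟨n, hn⟩ := ((F.eventually_all (l := Filter.atTop)).2
    (fun γ hγ => eventually_mem_Gl t (hF γ hγ))).exists
  obtain ⟨S, h1, h2, h3, h4⟩ := (inv_all t n).wander
  refine ⟨S, h1, h2, le_trans ?_ h3, fun γ hγ γ' hγ' s hs s' hs' μ hμ e => ?_⟩
  · rw [← ENNReal.ofReal_one]
    exact ENNReal.ofReal_le_ofReal (le_add_of_nonneg_right (by positivity))
  · have := h4 _ (mul_mem (inv_mem (hn γ' hγ')) (hn γ hγ)) s hs s' hs' μ hμ (by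
      simp only [mul_smul, mul_inv_rev, inv_inv, smul_inv_smul]
      rw [e, smul_comm γ'⁻¹ μ, inv_smul_smul, smul_comm])
    rw [inv_mul_eq_one, mul_left_inj, mul_right_inj] at this
    exact this.symm

end Pool.Agent.H607Z.Flute
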