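import Mathlib
import Pool.Agent.H607Z.Flute.Meas

/-! Convergence of the Poincaré series of the flute group. -/

namespace Pool.Agent.H607Z.Flute

open Set MatrixGroups MeasureTheory

/-- squared Frobenius norm -/
def nsq (γ : SL(2, ℝ)) : ℝ := γ 0 0 ^ 2 + γ 0 1 ^ 2 + γ 1 0 ^ 2 + γ 1 1 ^ 2

lemma det2 (γ : SL(2, ℝ)) : γ 0 0 * γ 1 1 - γ 0 1 * γ 1 0 = 1 := by
  have := γ.det_coe
  rwa [Matrix.det_fin_two] at this

lemma nsq_pos (γ : SL(2, ℝ)) : 0 < nsq γ := by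
  have := det2 γ
  unfold nsq
  nlinarith [sq_nonneg (γ 0 0 - γ 1 1), sq_nonneg (γ 0 1 + γ 1 0)]

/-- the boundary action in exponential parametrisation -/
noncomputable def bf (γ : SL(2, ℝ)) (s : ℝ) : ℝ :=
  (γ 0 0 * Real.exp s + γ 0 1) / (γ 1 0 * Real.exp s + γ 1 1)

/-- the pole set -/
def pole (γ : SL(2, ℝ)) : Set ℝ := {s | γ 1 0 * Real.exp s + γ 1 1 = 0}

lemma pole_subsingleton (γ : SL(2, ℝ)) : (pole γ).Subsingleton := by
  intro s hs s' hs'
  have h := det2 γ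
  simp only [pole, mem_ofPred_eq] at hs hs'
  by_contra hne
  have h1 : Real.exp s - Real.exp s' ≠ 0 := sub_ne_zero.2 fun e => hne (Real.exp_injective e)
  have h2 : γ 1 0 * (Real.exp s - Real.exp s') = 0 := by linarith
  have h3 : γ 1 0 = 0 := (mul_eq_zero.1 h2).resolve_right h1
  rw [h3] at hs h
  have h4 : γ 1 1 = 0 := by linarith
  rw [h4] at h
  simp at h

lemma bf_deriv (γ : SL(2, ℝ)) {s : ℝ} (hs : s ∉ pole γ) :
    HasDerivAt (bf γ) (Real.exp s / (γ 1 0 * Real.exp s + γ 1 1) ^ 2) s := by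
  have h1 := (((Real.hasDerivAt_exp s).const_mul (γ 0 0)).add_const (γ 0 1)).div
    (((Real.hasDerivAt_exp s).const_mul (γ 1 0)).add_const (γ 1 1)) hs
  refine HasDerivAt.congr_deriv (f := bf γ) h1 ?_
  congr 1
  linear_combination (Real.exp s) * det2 γ

lemma bf_inj (γ : SL(2, ℝ)) (S : Set ℝ) : InjOn (bf γ) (S \ pole γ) := by
  intro s hs s' hs' e
  rw [bf, bf, div_eq_div_iff hs.2 hs'.2] at e
  apply Real.exp_injective
  linear_combination e - (Real.exp s - Real.exp s') * det2 γ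

lemma bf_lower (γ : SL(2, ℝ)) {S : Set ℝ} (h1 : MeasurableSet S) (h2 : S ⊆ Ioc 0 5)
    (h3 : 1 ≤ volume S) : MeasurableSet (bf γ '' (S \ pole γ)) ∧
      ENNReal.ofReal ((1 + Real.exp 5 ^ 2)⁻¹ * (nsq γ)⁻¹) ≤
        ∫⁻ x in bf γ '' (S \ pole γ), ENNReal.ofReal ((1 + x ^ 2)⁻¹) := by
  have hm : MeasurableSet (S \ pole γ) := h1.diff (pole_subsingleton γ).measurableSet
  refine ⟨hm.image_of_continuousOn_injOn
    (fun s hs => (bf_deriv γ hs.2).continuousAt.continuousWithinAt) (bf_inj γ S), ?_⟩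
  rw [lintegral_image_eq_lintegral_abs_deriv_mul hm
    (fun s hs => (bf_deriv γ hs.2).hasDerivWithinAt) (bf_inj γ S)]
  have hv : 1 ≤ volume (S \ pole γ) := by
    rwa [measure_sdiff_null ((pole_subsingleton γ).measure_zero _)]
  calc ENNReal.ofReal ((1 + Real.exp 5 ^ 2)⁻¹ * (nsq γ)⁻¹)
      ≤ ENNReal.ofReal ((1 + Real.exp 5 ^ 2)⁻¹ * (nsq γ)⁻¹) * volume (S \ pole γ) :=
        le_mul_of_one_le_right' hv
    _ = ∫⁻ _ in S \ pole γ, ENNReal.ofReal ((1 + Real.exp 5 ^ 2)⁻¹ * (nsq γ)⁻¹) := by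
        rw [setLIntegral_const]
    _ ≤ _ := by
        refine setLIntegral_mono' hm fun s hs => ?_
        rw [← ENNReal.ofReal_mul (abs_nonneg _)]
        apply ENNReal.ofReal_le_ofReal
        have hq : γ 1 0 * Real.exp s + γ 1 1 ≠ 0 := hs.2
        have hz1 : 1 ≤ Real.exp s := Real.one_le_exp (h2 hs.1).1.le
        have hz2 : Real.exp s ≤ Real.exp 5 := Real.exp_le_exp.2 (h2 hs.1).2
        have hn := nsq_pos γ
        rw [abs_of_nonneg (by positivity), bf]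
        set z := Real.exp s
        set q := γ 1 0 * z + γ 1 1 with hq'
        set p := γ 0 0 * z + γ 0 1 with hp'
        have e : z / q ^ 2 * (1 + (p / q) ^ 2)⁻¹ = z / (q ^ 2 + p ^ 2) := by field_simp
        have k1 : q ^ 2 + p ^ 2 ≤ (1 + z ^ 2) * nsq γ := by
          rw [hq', hp', nsq]
          nlinarith only [sq_nonneg (γ 1 0 - γ 1 1 * z), sq_nonneg (γ 0 0 - γ 0 1 * z)]
        have k2 : (1 + z ^ 2) * nsq γ ≤ (1 + Real.exp 5 ^ 2) * nsq γ := by gcongr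
        rw [e, ← mul_inv, ← one_div]
        exact div_le_div₀ (by linarith) hz1 (by positivity) (k1.trans k2)

theorem flute_summable (t : ℕ → ℝ) :
    Summable fun γ : fluteGroup len t => (nsq γ)⁻¹ := by
  classical
  have hK : (0 : ℝ) < (1 + Real.exp 5 ^ 2)⁻¹ := by positivity
  have hfin : ∫⁻ x : ℝ, ENNReal.ofReal ((1 + x ^ 2)⁻¹) ≠ ⊤ :=
    integrable_inv_one_add_sq.lintegral_lt_top.ne
  rw [← summable_mul_left_iff hK.ne']
  refine summable_of_sum_le (c := (∫⁻ x : ℝ, ENNReal.ofReal ((1 + x ^ 2)⁻¹)).toReal)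
    (fun γ => mul_nonneg hK.le (inv_nonneg.2 (nsq_pos _).le)) fun u => ?_
  obtain ⟨S, h1, h2, h3, h4⟩ := wander t (u.image Subtype.val) (by
    intro γ hγ
    obtain ⟨g, -, rfl⟩ := Finset.mem_image.1 hγ
    exact g.2)
  rw [← ENNReal.ofReal_le_iff_le_toReal hfin, ENNReal.ofReal_sum_of_nonneg
    (fun γ _ => mul_nonneg hK.le (inv_nonneg.2 (nsq_pos _).le))]
  refine (Finset.sum_le_sum fun γ _ => (bf_lower γ.1 h1 h2 h3).2).trans ?_
  rw [← lintegral_biUnion_finset ?_ (fun γ _ => (bf_lower γ.1 h1 h2 h3).1)]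
  · exact setLIntegral_le_lintegral _ _
  · intro γ hγ γ' hγ' hne
    rw [Function.onFun, Set.disjoint_left]
    rintro _ ⟨s, hs, rfl⟩ ⟨s', hs', e⟩
    have q1 : γ.1 1 0 * Real.exp s + γ.1 1 1 ≠ 0 := hs.2
    have q2 : γ'.1 1 0 * Real.exp s' + γ'.1 1 1 ≠ 0 := hs'.2
    refine hne (Subtype.ext (h4 γ.1 (Finset.mem_image_of_mem _ hγ) γ'.1
      (Finset.mem_image_of_mem _ hγ') s hs.1 s' hs'.1
      ((γ.1 1 0 * Real.exp s + γ.1 1 1) / (γ'.1 1 0 * Real.exp s' + γ'.1 1 1))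
      (div_ne_zero q1 q2) ?_))
    rw [bf, bf, div_eq_div_iff q2 q1] at e
    ext i
    fin_cases i
    · show (γ.1 • (![Real.exp s, 1] : V)) 0 = _ * (γ'.1 • (![Real.exp s', 1] : V)) 0
      rw [smul0, smul0]
      simp only [Matrix.cons_val_zero, Matrix.cons_val_one, mul_one]
      field_simp
      linear_combination -e
    · show (γ.1 • (![Real.exp s, 1] : V)) 1 = _ * (γ'.1 • (![Real.exp s', 1] : V)) 1
      rw [smul1, smul1]
      simp only [Matrix.cons_val_zero, Matrix.cons_val_one, mul_one]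
      field_simp

theorem flute_neg_one (t : ℕ → ℝ) : (-1 : SL(2, ℝ)) ∉ fluteGroup len t := by
  classical
  intro h
  obtain ⟨S, -, -, h3, h4⟩ := wander t {-1, 1} (by
    intro γ hγ
    rcases Finset.mem_insert.1 hγ with rfl | hγ
    · exact h
    · rw [Finset.mem_singleton.1 hγ]; exact one_mem _)
  obtain ⟨s, hs⟩ : S.Nonempty := nonempty_of_measure_ne_zero (μ := volume)
    (lt_of_lt_of_le one_pos h3).ne'
  have := h4 (-1) (by simp) 1 (by simp) s hs s hs (-1) (by norm_num) (by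
    ext i
    fin_cases i
    · show ((-1 : SL(2, ℝ)) • (![Real.exp s, 1] : V)) 0 = _ * ((1 : SL(2, ℝ)) • (![Real.exp s, 1] : V)) 0
      rw [smul0, smul0]; simp
    · show ((-1 : SL(2, ℝ)) • (![Real.exp s, 1] : V)) 1 = _ * ((1 : SL(2, ℝ)) • (![Real.exp s, 1] : V)) 1
      rw [smul1, smul1]; simp)
  have h5 := congrArg (fun g : SL(2, ℝ) => g 0 0) this
  norm_num at h5

end Pool.Agent.H607Z.Flute
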