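import Mathlib
import Pool.Agent.H607Z.Flute.Sum
import Pool.Agent.H607Z.Flute.Blaschke
import Pool.Agent.H607Z.Flute.Perron

/-! Green functions for groups of convergence type. -/

namespace Pool.Agent.H607Z.Flute

open Set Filter Topology Metric ComplexConjugate MatrixGroups InnerProductSpace
open UpperHalfPlane hiding I
open Complex

/-- Moebius transformation of the plane -/
noncomputable def mob (γ : SL(2, ℝ)) (z : ℂ) : ℂ :=
  ((γ 0 0 : ℝ) * z + (γ 0 1 : ℝ)) / ((γ 1 0 : ℝ) * z + (γ 1 1 : ℝ))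

lemma coe_smul_mob (γ : SL(2, ℝ)) (z : ℍ) : ((γ • z : ℍ) : ℂ) = mob γ z := by
  rw [coe_specialLinearGroup_apply]; rfl

lemma den_ne (γ : SL(2, ℝ)) {z : ℂ} (hz : 0 < z.im) :
    ((γ 1 0 : ℝ) : ℂ) * z + (γ 1 1 : ℝ) ≠ 0 := by
  intro h
  have h1 := congrArg Complex.im h
  have h2 := congrArg Complex.re h
  simp only [add_im, mul_im, ofReal_re, ofReal_im, zero_mul, add_zero, zero_im, add_re, mul_re,
    sub_zero, zero_re] at h1 h2
  have h3 : γ 1 0 = 0 := (mul_eq_zero.1 h1).resolve_right hz.ne'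
  have h4 := det2 γ
  rw [h3] at h2 h4
  have h5 : γ 1 1 = 0 := by linarith
  rw [h5] at h4
  simp at h4

lemma mob_analytic (γ : SL(2, ℝ)) {z : ℂ} (hz : 0 < z.im) : AnalyticAt ℂ (mob γ) z := by
  unfold mob
  exact AnalyticAt.div (by fun_prop) (by fun_prop) (den_ne γ hz)

lemma harmonic_comp {h : ℂ → ℝ} {φ : ℂ → ℂ} {z : ℂ} (hh : HarmonicAt h (φ z))
    (hφ : AnalyticAt ℂ φ z) : HarmonicAt (fun w => h (φ w)) z := by
  obtain ⟨ε, hε, hεb⟩ := Metric.mem_nhds_iff.1 hh.eventually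
  obtain ⟨G, hG, hGe⟩ := HarmonicOnNhd.exists_analyticOnNhd_ball_re_eq (f := h) hεb
  have h1 : AnalyticAt ℂ (G ∘ φ) z := (hG _ (mem_ball_self hε)).comp hφ
  refine (harmonicAt_congr_nhds ?_).1 h1.harmonicAt_re
  filter_upwards [hφ.continuousAt.preimage_mem_nhds (ball_mem_nhds (φ z) hε)] with w hw
  exact hGe hw

lemma lin_lower (p : ℍ) (a b : ℝ) : a ^ 2 + b ^ 2 ≤
    (2 + (1 + 2 * p.re ^ 2) / p.im ^ 2) * normSq ((a : ℂ) * p + b) := by
  have hy := p.im_pos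
  have e : normSq ((a : ℂ) * p + b) = (a * p.re + b) ^ 2 + (a * p.im) ^ 2 := by
    simp [normSq_apply]; ring
  have e2 : (1 + 2 * p.re ^ 2) / p.im ^ 2 * (a * p.im) ^ 2 = (1 + 2 * p.re ^ 2) * a ^ 2 := by
    field_simp
  have e3 : 0 ≤ (1 + 2 * p.re ^ 2) / p.im ^ 2 * (a * p.re + b) ^ 2 := by positivity
  rw [e]
  nlinarith only [e2, e3, sq_nonneg (a * p.im), sq_nonneg (2 * a * p.re + b)]

lemma wt_smul_le (p : ℍ) (γ : SL(2, ℝ)) :
    wt (γ • p) ≤ p.im * (2 + (1 + 2 * p.re ^ 2) / p.im ^ 2) * (nsq γ)⁻¹ := by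
  have hy := p.im_pos
  have hd := den_ne γ (z := p) hy
  have h1 := lin_lower p (γ 0 0) (γ 0 1)
  have h2 := lin_lower p (γ 1 0) (γ 1 1)
  set M := 2 + (1 + 2 * p.re ^ 2) / p.im ^ 2
  set A : ℂ := ((γ 0 0 : ℝ) : ℂ) * p + (γ 0 1 : ℝ) with hA
  set D : ℂ := ((γ 1 0 : ℝ) : ℂ) * p + (γ 1 1 : ℝ) with hD
  have hD0 : 0 < normSq D := normSq_pos.2 hd
  have e0 : ((γ • p : ℍ) : ℂ) = A / D := coe_smul_mob γ p
  have e1 : A.im * D.re - A.re * D.im = p.im := by
    simp only [hA, hD, add_im, mul_im, ofReal_re, ofReal_im, add_re, mul_re, coe_re, coe_im]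
    linear_combination p.im * det2 γ
  have e2 : (γ • p).im = p.im / normSq D := by
    rw [← coe_im, e0, Complex.div_im, ← sub_div, e1]
  have e3 : ‖((γ • p : ℍ) : ℂ) + I‖ ^ 2 = (normSq A + normSq D + 2 * p.im) / normSq D := by
    have : A / D + I = (A + I * D) / D := by field_simp
    rw [e0, this, ← Complex.normSq_eq_norm_sq, map_div₀]
    congr 1
    simp only [normSq_apply, add_re, add_im, mul_re, mul_im, Complex.I_re, Complex.I_im]
    linear_combination 2 * e1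
  have hn := nsq_pos γ
  have hA0 := normSq_nonneg A
  have hM : 0 < M := by positivity
  rw [wt, e2, e3, div_div_div_cancel_right₀ hD0.ne', ← div_eq_mul_inv,
    div_le_div_iff₀ (by positivity) hn, mul_assoc]
  refine mul_le_mul_of_nonneg_left ?_ hy.le
  unfold nsq
  nlinarith only [h1, h2, mul_pos hM hy]

lemma fixed_subsingleton {γ : SL(2, ℝ)} (h1 : γ ≠ 1) (h2 : γ ≠ -1) :
    {z : ℍ | γ • z = z}.Subsingleton := by
  intro z hz w hw
  by_contra hne
  have key : ∀ y : ℍ, γ • y = y → ((γ 0 0 : ℝ) : ℂ) * y + (γ 0 1 : ℝ) =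
      y * (((γ 1 0 : ℝ) : ℂ) * y + (γ 1 1 : ℝ)) := by
    intro y hy
    have := coe_smul_mob γ y
    rw [hy, mob, eq_div_iff (den_ne γ y.im_pos)] at this
    exact this.symm
  have a1 := key z hz
  have a2 := key w hw
  have a3 : (z : ℂ) - w ≠ 0 := sub_ne_zero.2 fun e => hne (UpperHalfPlane.ext e)
  have a4 : ((γ 1 0 : ℝ) : ℂ) * (z + w) + (γ 1 1 : ℝ) - (γ 0 0 : ℝ) = 0 := by
    apply mul_left_cancel₀ a3
    linear_combination a2 - a1
  have a5 := congrArg Complex.im a4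
  simp only [sub_im, add_im, mul_im, ofReal_re, ofReal_im, zero_mul, add_zero, sub_zero, zero_im,
    coe_im] at a5
  have c0 : γ 1 0 = 0 := (mul_eq_zero.1 a5).resolve_right (add_pos z.im_pos w.im_pos).ne'
  rw [c0] at a4 a1
  have d0 : γ 1 1 = γ 0 0 := by
    have : ((γ 1 1 : ℝ) : ℂ) = (γ 0 0 : ℝ) := by push_cast at a4; linear_combination a4
    exact_mod_cast this
  have b0 : γ 0 1 = 0 := by
    have : ((γ 0 1 : ℝ) : ℂ) = 0 := by rw [d0] at a1; push_cast at a1; linear_combination a1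
    exact_mod_cast this
  have h := det2 γ
  rw [c0, d0, mul_zero, sub_zero, mul_self_eq_one_iff] at h
  rcases h with h | h
  · apply h1
    ext i j
    fin_cases i <;> fin_cases j <;> simp [h, b0, c0, d0]
  · apply h2
    ext i j
    fin_cases i <;> fin_cases j <;> simp [h, b0, c0, d0]

variable {Γ : Subgroup SL(2, ℝ)}

lemma exists_good (hs : Summable fun γ : Γ => (nsq γ)⁻¹) (hn : (-1 : SL(2, ℝ)) ∉ Γ) {U : Set ℍ}
    (hU : IsOpen U) (hne : U.Nonempty) :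
    ∃ p ∈ U, (∀ γ ∈ Γ, γ • p = p → γ = 1) ∧ ∀ γ ∈ Γ, I ≠ ((γ • p : ℍ) : ℂ) := by
  have hc : Countable Γ := by
    have := hs.countable_support
    rw [Function.support_eq_univ (fun γ => (inv_pos.2 (nsq_pos _)).ne')] at this
    exact countable_univ_iff.1 this
  have h1 : (⋃ γ : Γ, ({z : ℍ | γ.1 ≠ 1 ∧ γ.1 • z = z} ∪ {γ.1⁻¹ • UpperHalfPlane.I})).Countable := by
    refine countable_iUnion fun γ => Countable.union ?_ (countable_singleton _)
    by_cases h : γ.1 = 1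
    · simp [h]
    · exact ((fixed_subsingleton h (fun e => hn (e ▸ γ.2))).anti fun z hz => hz.2).countable
  obtain ⟨_, h2, p, hp, rfl⟩ := ((h1.image ((↑) : ℍ → ℂ)).dense_compl ℝ).exists_mem_open
    (isOpenEmbedding_coe.isOpenMap U hU) (hne.image _)
  have h3 := fun h => h2 (mem_image_of_mem _ h)
  simp only [mem_iUnion, mem_union, mem_ofPred_eq, mem_singleton_iff] at h3
  refine ⟨p, hp, fun γ hγ e => ?_, fun γ hγ e => h3 ⟨⟨γ, hγ⟩, Or.inr ?_⟩⟩
  · by_contra h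
    exact h3 ⟨⟨γ, hγ⟩, Or.inl ⟨h, e⟩⟩
  · rw [eq_inv_smul_iff]
    exact UpperHalfPlane.ext e.symm

lemma EE_inv (p : ℍ) {γ : SL(2, ℝ)} (hγ : γ ∈ Γ) (z : ℍ) :
    EE (fun δ : Γ => δ.1 • p) ((γ • z : ℍ) : ℂ) = EE (fun δ : Γ => δ.1 • p) z := by
  unfold EE
  rw [← (Equiv.mulLeft (⟨γ, hγ⟩ : Γ)).tprod_eq]
  congr 1
  funext δ
  rw [norm_bl, norm_bl]
  simp only [Equiv.coe_mulLeft, Subgroup.coe_mul, mul_smul, dist_smul]

theorem green (hs : Summable fun γ : Γ => (nsq γ)⁻¹) {U : Set ℍ} (hU : IsOpen U)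
    (hUΓ : ∀ γ ∈ Γ, ∀ z ∈ U, γ • z ∈ U) {p : ℍ} (hp : p ∈ U) (hp1 : ∀ γ ∈ Γ, γ • p = p → γ = 1)
    (hp2 : ∀ γ ∈ Γ, I ≠ ((γ • p : ℍ) : ℂ)) : ∃ g, IsGreen Γ U p g := by
  classical
  have hw : Summable fun δ : Γ => wt (δ.1 • p) :=
    (hs.mul_left _).of_nonneg_of_le (fun _ => wt_nonneg _) fun δ => wt_smul_le p δ.1
  obtain ⟨F, hF1, hF2, hF3⟩ := blaschke hw (fun δ => hp2 δ.1 δ.2)
  obtain ⟨F', hG1, hG2, hG3⟩ := blaschke (w := fun i : ({1}ᶜ : Set Γ) => i.1.1 • p)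
    (hw.subtype _) (fun δ => hp2 δ.1.1 δ.1.2)
  have hsplit := fun z hz => EE_split hw 1 (z := z) hz
  have hinv := fun γ hγ z => EE_inv (Γ := Γ) p (γ := γ) hγ z
  have hE1 := fun z hz => EE_le_one hw (z := z) hz
  have hE0 : ∀ γ ∈ Γ, EE (fun δ : Γ => δ.1 • p) ((γ • p : ℍ) : ℂ) = 0 :=
    fun γ hγ => EE_zero (w := fun δ : Γ => δ.1 • p) ⟨γ, hγ⟩
  generalize EE (fun δ : Γ => δ.1 • p) = E at hF2 hsplit hinv hE1 hE0
  set U' : Set ℂ := (↑) '' U with hU'
  have hU'o : IsOpen U' := isOpenEmbedding_coe.isOpenMap U hU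
  have hU'H : ∀ z ∈ U', 0 < z.im := by rintro _ ⟨z, -, rfl⟩; exact z.im_pos
  have hH : ∀ z : ℂ, 0 < z.im → ∀ᶠ w in 𝓝 z, 0 < w.im :=
    fun z hz => isOpen_upperHalfPlaneSet.mem_nhds hz
  have hEF : ∀ z : ℂ, 0 < z.im → E =ᶠ[𝓝 z] fun w => ‖F w‖ := fun z hz => by
    filter_upwards [hH z hz] with w hw using hF2 w hw
  have hiso : ∀ z : ℂ, 0 < z.im → ∀ᶠ w in 𝓝[≠] z, E w ≠ 0 := by
    intro z hz
    have h1 : ∀ᶠ w in 𝓝[≠] z, F w ≠ 0 := by
      by_contra h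
      have h2 := hF1.eqOn_zero_of_preconnected_of_frequently_eq_zero
        (Complex.isConnected_of_upperHalfPlane subset_rfl
          (fun y (hy : 0 < y.im) => hy.le)).isPreconnected hz (by simpa using h)
      exact hF3 I (by simp) (fun δ => hp2 δ.1 δ.2) (h2 (show 0 < I.im by simp))
    filter_upwards [h1, mem_nhdsWithin_of_mem_nhds (hEF z hz)] with w a1 a2
    rw [a2]; exact norm_ne_zero_iff.2 a1
  obtain ⟨u, hu1, hu2, hu3⟩ := perron (E := E) hU'o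
    (fun z hz => ⟨F, hF1 z (hU'H z hz), hEF z (hU'H z hz)⟩) (fun z hz => hE1 z (hU'H z hz))
    (fun z hz => hiso z (hU'H z hz))
  have hoff : ∀ z : ℍ, (∀ δ ∈ Γ, δ • p ≠ z) → F z ≠ 0 := fun z hz =>
    hF3 z z.im_pos fun δ e => hz δ.1 δ.2 (UpperHalfPlane.ext e.symm)
  have hpos : ∀ z : ℍ, (∀ δ ∈ Γ, δ • p ≠ z) → 0 < E z := fun z hz => by
    rw [hF2 z z.im_pos]; exact norm_pos_iff.2 (hoff z hz)
  have hlog : ∀ z : ℍ, (∀ δ ∈ Γ, δ • p ≠ z) → HarmonicAt (fun w => Real.log (E w)) (z : ℂ) := by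
    intro z hz
    refine (harmonicAt_congr_nhds ?_).1 ((hF1 z z.im_pos).harmonicAt_log_norm (hoff z hz))
    filter_upwards [hEF z z.im_pos] with w hw
    rw [hw]
  have huinv : ∀ γ ∈ Γ, ∀ z ∈ U, u ((γ • z : ℍ) : ℂ) ≤ u z := by
    intro γ hγ z hz
    rw [coe_smul_mob]
    refine hu3 (fun w => u (mob γ w)) ?_ ?_ z (mem_image_of_mem _ hz)
    · rintro _ ⟨y, hy, rfl⟩
      refine harmonic_comp (hu1 _ ?_) (mob_analytic γ y.im_pos)
      rw [← coe_smul_mob]; exact mem_image_of_mem _ (hUΓ γ hγ y hy)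
    · rintro _ ⟨y, hy, rfl⟩
      rw [← coe_smul_mob, ← hinv γ hγ y]
      exact hu2 _ (mem_image_of_mem _ (hUΓ γ hγ y hy))
  have hF'p : F' p ≠ 0 := hG3 p p.im_pos fun δ e =>
    δ.2 (Subtype.ext (hp1 δ.1.1 δ.1.2 (UpperHalfPlane.ext e.symm)))
  -- the pole of `- log E`
  obtain ⟨k, hk1, hk2⟩ : ∃ k : ℂ → ℝ, HarmonicAt k (p : ℂ) ∧
      ∀ᶠ w in 𝓝[≠] (p : ℂ), -Real.log (E w) = -Real.log ‖w - p‖ + k w := by
    refine ⟨(fun w => Real.log ‖w - conj (p : ℂ)‖) - fun w => Real.log ‖F' w‖, ?_, ?_⟩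
    · exact (AnalyticAt.harmonicAt_log_norm (f := fun w => w - conj (p : ℂ)) (by fun_prop)
        (sub_conj_ne p.im_pos p)).sub ((hG1 p p.im_pos).harmonicAt_log_norm hF'p)
    · filter_upwards [self_mem_nhdsWithin, mem_nhdsWithin_of_mem_nhds (hH p p.im_pos),
        mem_nhdsWithin_of_mem_nhds ((hG1 p p.im_pos).continuousAt.eventually_ne hF'p)]
        with w a1 a2 a3
      have b1 : ‖w - p‖ ≠ 0 := norm_ne_zero_iff.2 (sub_ne_zero.2 a1)
      have b2 : ‖w - conj (p : ℂ)‖ ≠ 0 := norm_ne_zero_iff.2 (sub_conj_ne a2 p)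
      rw [hsplit w a2, hG2 w a2]
      simp only [OneMemClass.coe_one, one_smul, bl, norm_div, Pi.sub_apply]
      rw [Real.log_mul (div_ne_zero b1 b2) (norm_ne_zero_iff.2 a3), Real.log_div b1 b2]
      ring
  have hcoe : ∀ w : ℂ, 0 < w.im → ((ofComplex w : ℍ) : ℂ) = w := fun w hw => by
    rw [ofComplex_apply_of_im_pos hw]
  refine ⟨fun z => -Real.log (E z) - u z, ⟨?_, ?_, ?_, ?_⟩, ?_⟩
  · intro z hz _ γ hγ
    have a1 := huinv γ hγ z hz
    have a2 := huinv γ⁻¹ (inv_mem hγ) _ (hUΓ γ hγ z hz)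
    rw [inv_smul_smul] at a2
    rw [hinv γ hγ z, le_antisymm a1 a2]
  · intro z hz hz'
    have a1 := Real.log_le_log (mul_pos (Real.exp_pos _) (hpos z hz'))
      (hu2 z (mem_image_of_mem _ hz))
    rw [Real.log_mul (Real.exp_pos _).ne' (hpos z hz').ne', Real.log_exp, Real.log_one] at a1
    linarith
  · intro z hz hz'
    refine (harmonicAt_congr_nhds ?_).1 ((hlog z hz').neg.sub (hu1 z (mem_image_of_mem _ hz)))
    filter_upwards [hH z z.im_pos] with w hw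
    simp only [Function.comp_apply, hcoe w hw, Pi.sub_apply, Pi.neg_apply]
  · refine ⟨k - u, hk1.sub (hu1 p (mem_image_of_mem _ hp)), ?_⟩
    filter_upwards [hk2, mem_nhdsWithin_of_mem_nhds (hH p p.im_pos)] with w a1 a2
    rw [hcoe w a2, a1, Pi.sub_apply]
    ring
  · intro g' hg' z hz hz'
    obtain ⟨h', hh1, hh2⟩ := hg'.pole
    let v : ℂ → ℝ := fun w => if E w = 0 then (k - h') p else -Real.log (E w) - g' (ofComplex w)
    have horb : ∀ y : ℍ, E y ≠ 0 → ∀ δ ∈ Γ, δ • p ≠ y := by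
      rintro y hy δ hδ rfl
      exact hy (hE0 δ hδ)
    have hv := hu3 v ?_ ?_ z (mem_image_of_mem _ hz)
    · simp only [v, if_neg (hpos z hz').ne', ofComplex_apply] at hv
      linarith
    · rintro _ ⟨y, hy, rfl⟩
      by_cases hyo : ∀ δ ∈ Γ, δ • p ≠ y
      · refine (harmonicAt_congr_nhds ?_).1 ((hlog y hyo).neg.sub (hg'.harm y hy hyo))
        filter_upwards [hEF y y.im_pos, (hF1 y y.im_pos).continuousAt.eventually_ne (hoff y hyo)]
          with w a1 a2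
        have : E w ≠ 0 := by rw [a1]; exact norm_ne_zero_iff.2 a2
        simp only [v, if_neg this, Function.comp_apply, Pi.sub_apply, Pi.neg_apply]
      · simp only [not_forall, not_not] at hyo
        obtain ⟨δ, hδ, rfl⟩ := hyo
        have e0 : mob δ⁻¹ ((δ • p : ℍ) : ℂ) = p := by rw [← coe_smul_mob, inv_smul_smul]
        have ha := mob_analytic δ⁻¹ (δ • p).im_pos
        refine (harmonicAt_congr_nhds ?_).1
          (harmonic_comp (h := k - h') (by rw [e0]; exact hk1.sub hh1) ha)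
        have ht : Tendsto (mob δ⁻¹) (𝓝 ((δ • p : ℍ) : ℂ)) (𝓝 (p : ℂ)) := e0 ▸ ha.continuousAt
        filter_upwards [ht.eventually (eventually_nhdsWithin_iff.1 (hk2.and hh2)),
          eventually_nhdsWithin_iff.1 (hiso _ (δ • p).im_pos),
          hU'o.mem_nhds (mem_image_of_mem _ hy)] with w a1 a2 a3
        obtain ⟨x, hx, rfl⟩ := a3
        by_cases hxe : x = δ • p
        · rw [hxe, e0]
          simp only [v, if_pos (hE0 δ hδ)]
        · have b1 : E x ≠ 0 := a2 fun e => hxe (UpperHalfPlane.ext e)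
          rw [← coe_smul_mob] at a1 ⊢
          obtain ⟨b2, b3⟩ := a1 fun e => hxe (by
            rw [← UpperHalfPlane.ext (mem_singleton_iff.1 e), smul_inv_smul])
          rw [hinv _ (inv_mem hδ)] at b2
          rw [ofComplex_apply, hg'.inv x hx (horb x b1) _ (inv_mem hδ)] at b3
          simp only [v, if_neg b1, ofComplex_apply, Pi.sub_apply]
          linarith
    · rintro _ ⟨y, hy, rfl⟩
      by_cases b1 : E y = 0
      · rw [b1, mul_zero]; exact zero_le_one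
      · have b2 := hpos y (horb y b1)
        have b3 := hg'.nonneg y hy (horb y b1)
        simp only [v, if_neg b1, ofComplex_apply]
        rw [Real.exp_sub, Real.exp_neg, Real.exp_log b2, div_mul_eq_mul_div, inv_mul_cancel₀ b1,
          div_le_one (Real.exp_pos _)]
        exact Real.one_le_exp b3

theorem flute_green (t : ℕ → ℝ) {U : Set ℍ} (hU : IsOpen U) (hne : U.Nonempty)
    (hUΓ : ∀ γ ∈ fluteGroup len t, ∀ z ∈ U, γ • z ∈ U) :
    ∃ p ∈ U, ∃ g, IsGreen (fluteGroup len t) U p g := by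
  obtain ⟨p, hp, h1, h2⟩ := exists_good (flute_summable t) (flute_neg_one t) hU hne
  exact ⟨p, hp, green (flute_summable t) hU hUΓ hp h1 h2⟩

lemma len_mono : Monotone len := monotone_nat_of_le_succ fun n => by
  have := len_succ n
  have hn : (0 : ℝ) ≤ n := Nat.cast_nonneg n
  linarith

end Pool.Agent.H607Z.Flute
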